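import Mathlib

/-!
# The reverse clique game (definitions)

Two players claim in turn the edges of a board `B`. `WinsQ` and `WinsP` describe the positions from
which the player `P` can force that her opponent `Q` is the first one to own a forbidden set.
-/

set_option autoImplicit false

namespace RCG

section game

variable {E : Type*} [DecidableEq E]

mutual

/-- The opponent `Q` is to move; `P` owns `X` and has `k` passes left, `Q` owns `Y` (no passes).
`P` can force that `Q` is the first player who owns a forbidden set. -/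
inductive WinsQ (B : Finset E) (badP badQ : Finset E → Prop) : ℕ → Finset E → Finset E → Prop
  | mk {k : ℕ} {X Y : Finset E} (h0 : ∃ e ∈ B, e ∉ X ∧ e ∉ Y)
      (h : ∀ e ∈ B, e ∉ X → e ∉ Y → WinsP B badP badQ k X (insert e Y)) :
      WinsQ B badP badQ k X Y

/-- The same with `P` to move: `Q` has lost already, or `P` claims an edge without losing, or `P`
uses a pass. -/
inductive WinsP (B : Finset E) (badP badQ : Finset E → Prop) : ℕ → Finset E → Finset E → Prop
  | lost {k : ℕ} {X Y : Finset E} (h : badQ Y) : WinsP B badP badQ k X Y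
  | move {k : ℕ} {X Y : Finset E} (e : E) (he : e ∈ B) (hX : e ∉ X) (hY : e ∉ Y)
      (hb : ¬ badP (insert e X)) (h : WinsQ B badP badQ k (insert e X) Y) :
      WinsP B badP badQ k X Y
  | pass {k : ℕ} {X Y : Finset E} (h : WinsQ B badP badQ k X Y) : WinsP B badP badQ (k + 1) X Y

end

/-- Second has a winning strategy on the board `B`, if First must avoid `bad₁`, Second must avoid
`bad₂`, and Second may pass at most `k` times. -/
def SecondWins (B : Finset E) (bad₁ bad₂ : Finset E → Prop) (k : ℕ) : Prop :=
  WinsQ B bad₂ bad₁ k ∅ ∅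

/-- First has a winning strategy on the board `B`, if First must avoid `bad₁`, Second must avoid
`bad₂`, and First may pass at most `k` times. -/
def FirstWins (B : Finset E) (bad₁ bad₂ : Finset E → Prop) (k : ℕ) : Prop :=
  WinsP B bad₁ bad₂ k ∅ ∅

end game

variable {V : Type*}

/-- the edge set `G` contains a complete graph on `k` vertices -/
def HasK (k : ℕ) (G : Finset (Sym2 V)) : Prop :=
  ∃ S : Finset V, S.card = k ∧ ∀ x ∈ S, ∀ y ∈ S, x ≠ y → s(x, y) ∈ G

/-- the edge set `G` contains a complete graph on `k` vertices minus (at most) one edge -/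
def HasKm (k : ℕ) (G : Finset (Sym2 V)) : Prop :=
  ∃ S : Finset V, S.card = k ∧ ∃ u ∈ S, ∃ v ∈ S, u ≠ v ∧
    ∀ x ∈ S, ∀ y ∈ S, x ≠ y → s(x, y) ≠ s(u, v) → s(x, y) ∈ G

/-- the edges of `K_N` -/
def full (N : ℕ) : Finset (Sym2 (Fin N)) := Finset.univ.filter fun e => ¬ e.IsDiag

/-- `N ≥ R(p, q)` -/
def Ramsey (p q N : ℕ) : Prop := ∀ Y ⊆ full N, HasK p Y ∨ HasK q (full N \ Y)

end RCG
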