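import Pool.Agent.Work.MP_1ad43c_co.Play

/-!
# The mirror strategy with one extra edge, determinacy, deletion of an edge
-/

set_option autoImplicit false
set_option linter.unusedSectionVars false

namespace RCG

open Finset

variable {N : ℕ}

section extra

variable {σ : Fin N → Fin N} {badP badQ : Finset (Sym2 (Fin N)) → Prop}

/-- a new extra edge -/
theorem Inv.new_extra {X Y : Finset (Sym2 (Fin N))} (h : Inv σ ∅ X Y) {f : Sym2 (Fin N)}
    (hσ : ∀ x, σ (σ x) = x) (hf : f ∈ full N) (hfa : Sym2.map σ f ≠ f) (hfX : f ∉ X)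
    (hfY : f ∉ Y) : Inv σ {f} (insert f X) Y where
  hX := Finset.insert_subset hf h.hX
  hY := h.hY
  hXY := by
    intro g hg
    rw [Finset.mem_insert] at hg
    rcases hg with hg | hg
    · rw [hg]; exact hfY
    · exact h.hXY g hg
  hDX := by
    intro g hg
    rw [Finset.mem_singleton] at hg
    rw [hg]
    have h1 : Sym2.map σ (Sym2.map σ f) ≠ Sym2.map σ f := by rw [map_map' hσ]; exact hfa.symm
    refine ⟨Finset.mem_insert_self _ _, hfa, ?_, ?_⟩
    · rw [Finset.mem_insert]
      rintro (h5 | h5)
      · exact hfa h5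
      · have := (h.hm _ (map_full hσ hf) h1 (by simp)).1 h5
        rw [map_map' hσ] at this
        exact hfY this
    · intro h5
      exact hfX ((h.hm f hf hfa (by simp)).2 h5)
  hDc := by simp
  hm := by
    intro g hg h1 h2
    rw [Finset.mem_singleton] at h2
    rw [Finset.mem_insert, or_iff_right h2]
    exact h.hm g hg h1 (by simp)

/-- the mirror image of the extra edge is claimed by the opponent -/
theorem Inv.resolve {X Y : Finset (Sym2 (Fin N))} {d : Sym2 (Fin N)} (h : Inv σ {d} X Y)
    (hσ : ∀ x, σ (σ x) = x) : Inv σ ∅ X (insert (Sym2.map σ d) Y) := by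
  obtain ⟨hd1, hd2, hd3, hd4⟩ := h.hDX d (Finset.mem_singleton_self _)
  refine ⟨h.hX, ?_, ?_, by simp, by simp, ?_⟩
  · exact Finset.insert_subset (map_full hσ (h.hX hd1)) h.hY
  · intro g hg
    rw [Finset.mem_insert]
    rintro (h1 | h1)
    · exact hd3 (h1 ▸ hg)
    · exact h.hXY g hg h1
  · intro g hg h1 _
    rw [Finset.mem_insert]
    by_cases h2 : g = d
    · rw [h2]
      exact ⟨fun _ => Or.inl rfl, fun _ => hd1⟩
    · rw [h.hm g hg h1 (by rw [Finset.mem_singleton]; exact h2)]
      constructor
      · exact Or.inr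
      · rintro (h3 | h3)
        · exact absurd (by rw [← map_map' hσ g, h3, map_map' hσ]) h2
        · exact h3

/-- mirror strategy with at most one extra edge; any parity -/
theorem win_extra (hσ : ∀ x, σ (σ x) = x)
    (hb : ∀ D X Y, Inv σ D X Y → badP X → badQ Y)
    (he : ∀ Y ⊆ full N, badQ Y ∨ badP (full N \ Y)) (n : ℕ) :
    ∀ (D X Y : Finset (Sym2 (Fin N))), (full N \ (X ∪ Y)).card ≤ n → Inv σ D X Y →
      (D = ∅ ∨ Even (fa σ X Y).card) → ¬ badQ Y → WinsQ (full N) badP badQ 0 X Y := by
  induction n with
  | zero =>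
    intro D X Y hn hI hk hq
    exfalso
    obtain ⟨e, he1, he2, he3⟩ := exists_free he hI.hX hI.hY hI.hXY hq
      (fun h => hq (hb D X Y hI h))
    have := Finset.card_eq_zero.1 (Nat.le_zero.1 hn)
    rw [Finset.eq_empty_iff_forall_notMem] at this
    exact this e (by rw [Finset.mem_sdiff, Finset.mem_union]; tauto)
  | succ n ih =>
    intro D X Y hn hI hk hq
    refine WinsQ.mk (exists_free he hI.hX hI.hY hI.hXY hq (fun h => hq (hb D X Y hI h))) ?_
    intro e he1 heX heY
    by_cases hq' : badQ (insert e Y)
    · exact WinsP.lost hq'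
    have hcard : ∀ f, (full N \ (insert f X ∪ insert e Y)).card ≤ n := fun f => by
      have := card_free_lt he1 heX heY (Finset.subset_insert f X)
      omega
    -- there is a free edge for the reply
    obtain ⟨f₀, hf₀, hf₀X, hf₀Y⟩ : ∃ f ∈ full N, f ∉ X ∧ f ∉ insert e Y :=
      exists_free he hI.hX (Finset.insert_subset he1 hI.hY) (by
        intro g hg
        rw [Finset.mem_insert]
        rintro (h1 | h1)
        · exact heX (h1 ▸ hg)
        · exact hI.hXY g hg h1) hq' (fun h => hq (hb D X Y hI h))
    by_cases hea : Sym2.map σ e = e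
    · have hmem : e ∈ fa σ X Y := mem_fa.2 ⟨⟨he1, hea⟩, heX, heY⟩
      by_cases hf : ∃ f, f ∈ fa σ X (insert e Y)
      · obtain ⟨f, hf⟩ := hf
        obtain ⟨⟨hf1, hfa⟩, hfX, hfY⟩ := mem_fa.1 hf
        have hfe : f ≠ e := fun h => hfY (by rw [h]; exact Finset.mem_insert_self _ _)
        have hfY' : f ∉ Y := fun h => hfY (Finset.mem_insert_of_mem h)
        have hI' := hI.axis_both he1 hea heX hf1 hfa hfY' hfe hσ
        refine WinsP.move f hf1 hfX hfY (fun h => hq' (hb _ _ _ hI' h))
          (ih D _ _ (hcard f) hI' ?_ hq')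
        rcases hk with hk | hk
        · exact Or.inl hk
        · right
          rw [fa_left, fa_right, Finset.card_erase_of_mem (by rw [← fa_right]; exact hf),
            Finset.card_erase_of_mem hmem]
          rw [Nat.sub_sub]
          have h2 : 2 ≤ (fa σ X Y).card := by
            have : 1 < (fa σ X Y).card := Finset.one_lt_card.2 ⟨f, mem_fa.2
              ⟨⟨hf1, hfa⟩, hfX, hfY'⟩, e, hmem, hfe⟩
            omega
          exact (Nat.even_sub h2).2 ⟨fun _ => even_two, fun _ => hk⟩
      · have h0 : fa σ X (insert e Y) = ∅ :=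
          Finset.eq_empty_iff_forall_notMem.2 fun f hf' => hf ⟨f, hf'⟩
        have h1 : (fa σ X Y).card = 1 := by
          rw [fa_right] at h0
          have h2 := Finset.card_erase_add_one hmem
          rw [h0] at h2
          simpa using h2.symm
        have hD0 : D = ∅ := by
          rcases hk with hk | hk
          · exact hk
          · rw [h1] at hk; exact absurd hk (by decide)
        subst hD0
        have hf₀a : Sym2.map σ f₀ ≠ f₀ := fun h => hf ⟨f₀, mem_fa.2 ⟨⟨hf₀, h⟩, hf₀X, hf₀Y⟩⟩
        have hI' := (hI.axis_right he1 hea heX hσ).new_extra hσ hf₀ hf₀a hf₀X hf₀Y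
        refine WinsP.move f₀ hf₀ hf₀X hf₀Y (fun h => hq' (hb _ _ _ hI' h))
          (ih {f₀} _ _ (hcard f₀) hI' ?_ hq')
        right
        rw [fa_left, h0]
        simp
    · by_cases hD : Sym2.map σ e ∈ D
      · have hDe : D = {Sym2.map σ e} := by
          have h1 := hI.hDc
          rw [Finset.card_le_one] at h1
          ext g
          rw [Finset.mem_singleton]
          exact ⟨fun hg => h1 g hg _ hD, fun hg => hg ▸ hD⟩
        rw [hDe] at hI
        have hI1 := hI.resolve hσ
        rw [map_map' hσ] at hI1
        have hev : Even (fa σ X Y).card := by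
          rcases hk with hk | hk
          · rw [hk] at hD; exact absurd hD (by simp)
          · exact hk
        have hfar : fa σ X (insert e Y) = fa σ X Y := by
          rw [fa_right, Finset.erase_eq_of_notMem]
          intro h3; exact hea (mem_fa.1 h3).1.2
        by_cases hf₀a : Sym2.map σ f₀ = f₀
        · have hI' := hI1.axis_left hf₀ hf₀a hf₀Y hσ
          exact WinsP.move f₀ hf₀ hf₀X hf₀Y (fun h => hq' (hb _ _ _ hI' h))
            (ih ∅ _ _ (hcard f₀) hI' (Or.inl rfl) hq')
        · have hI' := hI1.new_extra hσ hf₀ hf₀a hf₀X hf₀Y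
          refine WinsP.move f₀ hf₀ hf₀X hf₀Y (fun h => hq' (hb _ _ _ hI' h))
            (ih {f₀} _ _ (hcard f₀) hI' (Or.inr ?_) hq')
          rw [fa_left, hfar, Finset.erase_eq_of_notMem]
          · exact hev
          · intro h3; exact hf₀a (mem_fa.1 h3).1.2
      · obtain ⟨h1, h2, hI'⟩ := hI.mirror hσ he1 hea heX heY hD
        refine WinsP.move (Sym2.map σ e) (map_full hσ he1) h1 ?_ (fun h => hq' (hb _ _ _ hI' h))
          (ih D _ _ (hcard _) hI' ?_ hq')
        · rw [Finset.mem_insert]
          rintro (h3 | h3)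
          · exact hea h3
          · exact h2 h3
        · rw [fa_left, fa_right, Finset.erase_eq_of_notMem (a := Sym2.map σ e),
            Finset.erase_eq_of_notMem (a := e)]
          · exact hk
          · intro h3; exact hea (mem_fa.1 h3).1.2
          · intro h3
            have := (mem_fa.1 (Finset.mem_of_mem_erase h3)).1.2
            rw [map_map' hσ] at this
            exact hea this.symm

end extra

section general

variable {E : Type*} [DecidableEq E] {B : Finset E}

theorem free_card_lt {X Y X' Y' : Finset E} {e : E} (he : e ∈ B) (heX : e ∉ X) (heY : e ∉ Y)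
    (hX' : X ⊆ X') (hY' : Y ⊆ Y') (h : e ∈ X' ∨ e ∈ Y') :
    (B \ (X' ∪ Y')).card < (B \ (X ∪ Y)).card := by
  refine Finset.card_lt_card ⟨Finset.sdiff_subset_sdiff (Finset.Subset.refl _)
    (Finset.union_subset_union hX' hY'), ?_⟩
  intro h1
  have := h1 (Finset.mem_sdiff.2 ⟨he, by rw [Finset.mem_union]; tauto⟩)
  rw [Finset.mem_sdiff, Finset.mem_union] at this
  exact this.2 h

/-- without draws the game is determined -/
theorem determined (n : ℕ) : ∀ (bP bQ : Finset E → Prop) (_ : ∀ X Y : Finset E, X ⊆ B → Y ⊆ B →
      B ⊆ X ∪ Y → bP X ∨ bQ Y) (X Y : Finset E), (B \ (X ∪ Y)).card ≤ n → X ⊆ B → Y ⊆ B →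
      ¬ bP X → ¬ bQ Y → WinsQ B bP bQ 0 X Y ∨ WinsP B bQ bP 0 Y X := by
  induction n with
  | zero =>
    intro bP bQ hnd X Y hn hX hY hp hq
    exfalso
    have h1 := Finset.card_eq_zero.1 (Nat.le_zero.1 hn)
    rw [Finset.sdiff_eq_empty_iff_subset] at h1
    rcases hnd X Y hX hY h1 with h | h
    · exact hp h
    · exact hq h
  | succ n ih =>
    intro bP bQ hnd X Y hn hX hY hp hq
    by_cases hw : WinsP B bQ bP 0 Y X
    · exact Or.inr hw
    · left
      refine WinsQ.mk ?_ ?_
      · by_contra hcon
        push Not at hcon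
        have h1 : B ⊆ X ∪ Y := by
          intro e he
          rw [Finset.mem_union]
          by_contra h2
          push Not at h2
          exact h2.2 (hcon e he h2.1)
        rcases hnd X Y hX hY h1 with h | h
        · exact hp h
        · exact hq h
      · intro e he heX heY
        by_cases hq' : bQ (insert e Y)
        · exact WinsP.lost hq'
        · rcases ih bQ bP (fun X Y h1 h2 h3 => (hnd Y X h2 h1 (by rwa [Finset.union_comm])).symm)
            (insert e Y) X (by
              have := free_card_lt (X' := X) (Y' := insert e Y) he heX heY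
                (Finset.Subset.refl _) (Finset.subset_insert _ _)
                (Or.inr (Finset.mem_insert_self _ _))
              rw [Finset.union_comm (insert e Y)]
              omega) (Finset.insert_subset he hY) hX hq' hp with h | h
          · exact absurd (WinsP.move e he heY heX hq' h) hw
          · exact h

/-- an edge of her own graph never helps `P` -/
theorem delete_own {bP bQ : Finset E → Prop} (hmono : ∀ X X' : Finset E, X ⊆ X' → bP X → bP X')
    {g : E} (n : ℕ) : ∀ (k : ℕ) (X Y : Finset E), (B \ (X ∪ Y)).card ≤ n → g ∈ X → g ∉ Y →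
      WinsQ B bP bQ k X Y → WinsQ (B.erase g) bP bQ k (X.erase g) Y := by
  induction n with
  | zero =>
    intro k X Y hn hgX hgY hw
    exfalso
    cases hw with
    | mk h0 h =>
      obtain ⟨e, he, heX, heY⟩ := h0
      have := Finset.card_eq_zero.1 (Nat.le_zero.1 hn)
      rw [Finset.eq_empty_iff_forall_notMem] at this
      exact this e (by rw [Finset.mem_sdiff, Finset.mem_union]; tauto)
  | succ n ih =>
    intro k X Y hn hgX hgY hw
    cases hw with
    | mk h0 h =>
      refine WinsQ.mk ?_ ?_
      · obtain ⟨e, he, heX, heY⟩ := h0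
        exact ⟨e, Finset.mem_erase.2 ⟨fun h1 => heX (h1 ▸ hgX), he⟩,
          fun h1 => heX (Finset.mem_of_mem_erase h1), heY⟩
      · intro e he heX heY
        obtain ⟨heg, he⟩ := Finset.mem_erase.1 he
        have heX' : e ∉ X := fun h1 => heX (Finset.mem_erase.2 ⟨heg, h1⟩)
        have hgY' : g ∉ insert e Y := by
          rw [Finset.mem_insert]
          rintro (h1 | h1)
          · exact heg h1.symm
          · exact hgY h1
        have hw := h e he heX' heY
        have hlt : ∀ X', X ⊆ X' → (B \ (X' ∪ insert e Y)).card ≤ n := fun X' hX' => by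
          have := free_card_lt (B := B) he heX' heY hX' (Finset.subset_insert e Y)
            (Or.inr (Finset.mem_insert_self _ _))
          omega
        cases hw with
        | lost h1 => exact WinsP.lost h1
        | move f hf hfX hfY hfb hw =>
          have hfg : f ≠ g := fun h1 => hfX (h1 ▸ hgX)
          have h2 : (insert f X).erase g = insert f (X.erase g) :=
            Finset.erase_insert_of_ne hfg
          have h3 := ih k _ _ (hlt _ (Finset.subset_insert f X))
            (Finset.mem_insert_of_mem hgX) hgY' hw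
          rw [h2] at h3
          refine WinsP.move f (Finset.mem_erase.2 ⟨hfg, hf⟩)
            (fun h1 => hfX (Finset.mem_of_mem_erase h1)) hfY (fun h1 => hfb (hmono _ _ ?_ h1)) h3
          exact Finset.insert_subset_insert _ (Finset.erase_subset _ _)
        | pass hw => exact WinsP.pass (ih _ _ _ (hlt _ (Finset.Subset.refl _)) hgX hgY' hw)

/-- Second wins on `B` or on `B` minus an edge -/
theorem second_or {bad : Finset E → Prop} (hmono : ∀ X X' : Finset E, X ⊆ X' → bad X → bad X')
    (h0 : ¬ bad ∅) (hnd : ∀ X Y : Finset E, X ⊆ B → Y ⊆ B → B ⊆ X ∪ Y → bad X ∨ bad Y) :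
    SecondWins B bad bad 0 ∨ ∃ e ∈ B, SecondWins (B.erase e) bad bad 0 := by
  rcases determined (B := B) _ bad bad hnd ∅ ∅ le_rfl (Finset.empty_subset _)
    (Finset.empty_subset _) h0 h0 with h | h
  · exact Or.inl h
  · right
    cases h with
    | lost h => exact absurd h h0
    | move e he _ _ hb h =>
      refine ⟨e, he, ?_⟩
      have := delete_own (B := B) hmono _ 0 _ _ le_rfl (Finset.mem_insert_self e ∅) (by simp) h
      rw [Finset.erase_insert (by simp)] at this
      exact this

end general

end RCG
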