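import Pool.Agent.Work.MP_1ad43c_co.Extra

/-!
# The reverse clique game: near symmetry (assembly)
-/

set_option autoImplicit false
set_option linter.unusedSectionVars false

namespace RCG

open Finset

variable {N : ℕ}

/-! ### an explicit bound for the Ramsey numbers -/

theorem ramsey_aux (Y : Finset (Sym2 (Fin N))) (s : ℕ) : ∀ p q : ℕ, p + q = s →
    ∀ W : Finset (Fin N), (p + q).choose p ≤ W.card →
      (∃ S ⊆ W, S.card = p + 1 ∧ ∀ x ∈ S, ∀ y ∈ S, x ≠ y → s(x, y) ∈ Y) ∨
      (∃ S ⊆ W, S.card = q + 1 ∧ ∀ x ∈ S, ∀ y ∈ S, x ≠ y → s(x, y) ∉ Y) := by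
  induction s with
  | zero =>
    intro p q hpq W hW
    obtain ⟨rfl, rfl⟩ : p = 0 ∧ q = 0 := by omega
    obtain ⟨v, hv⟩ := Finset.card_pos.1 (lt_of_lt_of_le (by simp) hW)
    left
    refine ⟨{v}, by simpa using hv, by simp, ?_⟩
    intro x hx y hy hxy
    rw [Finset.mem_singleton] at hx hy
    exact absurd (hx.trans hy.symm) hxy
  | succ s ih =>
    intro p q hpq W hW
    obtain ⟨v, hv⟩ := Finset.card_pos.1
      (lt_of_lt_of_le (Nat.choose_pos (by omega : p ≤ p + q)) hW)
    rcases p with _ | p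
    · left
      refine ⟨{v}, by simpa using hv, by simp, ?_⟩
      intro x hx y hy hxy
      rw [Finset.mem_singleton] at hx hy
      exact absurd (hx.trans hy.symm) hxy
    rcases q with _ | q
    · right
      refine ⟨{v}, by simpa using hv, by simp, ?_⟩
      intro x hx y hy hxy
      rw [Finset.mem_singleton] at hx hy
      exact absurd (hx.trans hy.symm) hxy
    have hA : ((W.erase v).filter fun x => s(v, x) ∈ Y).card +
        ((W.erase v).filter fun x => ¬ s(v, x) ∈ Y).card = W.card - 1 := by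
      rw [Finset.card_filter_add_card_filter_not, Finset.card_erase_of_mem hv]
    have hch : (p + 1 + (q + 1)).choose (p + 1) =
        (p + (q + 1)).choose p + (p + 1 + q).choose (p + 1) := by
      have h1 : p + 1 + (q + 1) = (p + q + 1) + 1 := by ring
      have h2 : p + (q + 1) = p + q + 1 := by ring
      have h3 : p + 1 + q = p + q + 1 := by ring
      rw [h1, h2, h3, Nat.choose_succ_succ]
    by_cases hc : (p + (q + 1)).choose p ≤ ((W.erase v).filter fun x => s(v, x) ∈ Y).card
    · rcases ih p (q + 1) (by omega) _ hc with ⟨S, hS, hSc, hSY⟩ | ⟨S, hS, hSc, hSY⟩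
      · left
        have hvS : v ∉ S := fun h => by
          have := hS h
          rw [Finset.mem_filter, Finset.mem_erase] at this
          exact this.1.1 rfl
        refine ⟨insert v S, ?_, by rw [Finset.card_insert_of_notMem hvS, hSc], ?_⟩
        · refine Finset.insert_subset hv (hS.trans ?_)
          exact (Finset.filter_subset _ _).trans (Finset.erase_subset _ _)
        · intro x hx y hy hxy
          rw [Finset.mem_insert] at hx hy
          rcases hx with rfl | hx
          · rcases hy with rfl | hy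
            · exact absurd rfl hxy
            · exact (Finset.mem_filter.1 (hS hy)).2
          · rcases hy with rfl | hy
            · rw [Sym2.eq_swap]; exact (Finset.mem_filter.1 (hS hx)).2
            · exact hSY x hx y hy hxy
      · right
        exact ⟨S, hS.trans ((Finset.filter_subset _ _).trans (Finset.erase_subset _ _)), hSc, hSY⟩
    · have hc' : (p + 1 + q).choose (p + 1) ≤
          ((W.erase v).filter fun x => ¬ s(v, x) ∈ Y).card := by omega
      rcases ih (p + 1) q (by omega) _ hc' with ⟨S, hS, hSc, hSY⟩ | ⟨S, hS, hSc, hSY⟩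
      · left
        exact ⟨S, hS.trans ((Finset.filter_subset _ _).trans (Finset.erase_subset _ _)), hSc, hSY⟩
      · right
        have hvS : v ∉ S := fun h => by
          have := hS h
          rw [Finset.mem_filter, Finset.mem_erase] at this
          exact this.1.1 rfl
        refine ⟨insert v S, ?_, by rw [Finset.card_insert_of_notMem hvS, hSc], ?_⟩
        · refine Finset.insert_subset hv (hS.trans ?_)
          exact (Finset.filter_subset _ _).trans (Finset.erase_subset _ _)
        · intro x hx y hy hxy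
          rw [Finset.mem_insert] at hx hy
          rcases hx with rfl | hx
          · rcases hy with rfl | hy
            · exact absurd rfl hxy
            · exact (Finset.mem_filter.1 (hS hy)).2
          · rcases hy with rfl | hy
            · rw [Sym2.eq_swap]; exact (Finset.mem_filter.1 (hS hx)).2
            · exact hSY x hx y hy hxy

theorem ramsey_of_choose (p q : ℕ) (h : (p + q).choose p ≤ N) : Ramsey (p + 1) (q + 1) N := by
  intro Y hY
  rcases ramsey_aux Y (p + q) p q rfl Finset.univ (by simpa using h) with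
    ⟨S, -, hSc, hS⟩ | ⟨S, -, hSc, hS⟩
  · exact Or.inl ⟨S, hSc, hS⟩
  · refine Or.inr ⟨S, hSc, fun x hx y hy hxy => ?_⟩
    rw [Finset.mem_sdiff, mem_full, Sym2.mk_isDiag_iff]
    exact ⟨hxy, hS x hx y hy hxy⟩

/-! ### the reflection -/

theorem rev_fix (x y : Fin N) (hx : Fin.rev x = x) (hy : Fin.rev y = y) : x = y := by
  have h1 := congrArg Fin.val hx
  have h2 := congrArg Fin.val hy
  rw [Fin.val_rev] at h1 h2
  ext
  omega

theorem axis_card : (axis (N := N) Fin.rev).card = N / 2 := by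
  have h1 : axis (N := N) Fin.rev =
      (Finset.univ.filter fun i : Fin N => (i : ℕ) < N / 2).image fun i => s(i, Fin.rev i) := by
    ext e
    induction e with
    | h x y =>
      rw [axis, Finset.mem_filter, mem_full, Sym2.mk_isDiag_iff, Sym2.map_mk, Finset.mem_image]
      constructor
      · rintro ⟨hxy, h⟩
        rw [Sym2.eq_iff] at h
        rcases h with ⟨h1, h2⟩ | ⟨h1, h2⟩
        · exact absurd (rev_fix x y h1 h2) hxy
        · have h3 := congrArg Fin.val h1
          rw [Fin.val_rev] at h3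
          have hx := x.2
          by_cases h4 : (x : ℕ) < N / 2
          · exact ⟨x, by simpa using h4, by rw [h1]⟩
          · refine ⟨y, ?_, by rw [h2]; exact Sym2.eq_swap⟩
            rw [Finset.mem_filter]
            refine ⟨Finset.mem_univ _, ?_⟩
            have h5 : (x : ℕ) ≠ y := fun h => hxy (Fin.ext h)
            omega
      · rintro ⟨i, hi, h⟩
        rw [Finset.mem_filter] at hi
        rw [Sym2.eq_iff] at h
        have h5 : i ≠ Fin.rev i := by
          intro h6
          have h7 := congrArg Fin.val h6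
          rw [Fin.val_rev] at h7
          have := i.2
          omega
        rcases h with ⟨rfl, rfl⟩ | ⟨rfl, rfl⟩
        · exact ⟨h5, by rw [Fin.rev_rev]; exact Sym2.eq_swap⟩
        · exact ⟨h5.symm, by rw [Fin.rev_rev]; exact Sym2.eq_swap⟩
  rw [h1, Finset.card_image_of_injOn, Fin.card_filter_val_lt]
  · exact min_eq_right (Nat.div_le_self _ _)
  · intro i hi j hj h
    rw [Finset.mem_coe, Finset.mem_filter] at hi hj
    rw [Sym2.eq_iff] at h
    rcases h with ⟨h, -⟩ | ⟨h, -⟩
    · exact h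
    · have h2 := congrArg Fin.val h
      rw [Fin.val_rev] at h2
      omega

theorem fa_empty (σ : Fin N → Fin N) : fa σ ∅ ∅ = axis σ := by
  ext e
  simp [fa]

theorem not_hasK_empty {V : Type*} [DecidableEq V] {p : ℕ} (hp : 2 ≤ p) :
    ¬ HasK p (∅ : Finset (Sym2 V)) := by
  rintro ⟨S, hS, h⟩
  obtain ⟨x, hx, y, hy, hxy⟩ := Finset.one_lt_card.1 (by omega : 1 < S.card)
  exact absurd (h x hx y hy hxy) (by simp)

theorem not_hasK_single {V : Type*} [DecidableEq V] {p : ℕ} (hp : 3 ≤ p) (e : Sym2 V) :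
    ¬ HasK p {e} := by
  rintro ⟨S, hS, h⟩
  obtain ⟨x, hx, y, hy, z, hz, hxy, hxz, hyz⟩ := Finset.two_lt_card.1 (by omega : 2 < S.card)
  have h1 := Finset.mem_singleton.1 (h x hx y hy hxy)
  have h2 := Finset.mem_singleton.1 (h x hx z hz hxz)
  rw [← h2, Sym2.eq_iff] at h1
  rcases h1 with ⟨-, h3⟩ | ⟨h3, -⟩
  · exact hyz h3
  · exact hxz h3

theorem not_hasKm_empty {V : Type*} [DecidableEq V] {p : ℕ} (hp : 3 ≤ p) :
    ¬ HasKm p (∅ : Finset (Sym2 V)) := by
  rintro ⟨S, hS, u, hu, v, hv, huv, h⟩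
  obtain ⟨w, hw, hwuv⟩ : ∃ w ∈ S, w ∉ ({u, v} : Finset V) := by
    by_contra hcon
    push Not at hcon
    have := (Finset.card_le_card hcon).trans Finset.card_le_two
    omega
  rw [Finset.mem_insert, Finset.mem_singleton] at hwuv
  push Not at hwuv
  refine absurd (h w hw u hu hwuv.1 ?_) (by simp)
  intro h1
  rw [Sym2.eq_iff] at h1
  rcases h1 with ⟨h2, -⟩ | ⟨h2, -⟩
  · exact hwuv.1 h2
  · exact hwuv.2 h2

theorem HasK.mono_right {V : Type*} {p : ℕ} {G G' : Finset (Sym2 V)} (h : G ⊆ G')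
    (hG : HasK p G) : HasK p G' := by
  obtain ⟨S, hS, hc⟩ := hG
  exact ⟨S, hS, fun x hx y hy hxy => h (hc x hx y hy hxy)⟩

/-! ### the strategies -/

section strategies

variable {badP badQ : Finset (Sym2 (Fin N)) → Prop}

theorem second_of_mirror (hb : ∀ X Y, Inv (N := N) Fin.rev ∅ X Y → badP X → badQ Y)
    (he : ∀ Y ⊆ full N, badQ Y ∨ badP (full N \ Y)) (h0 : ¬ badQ ∅) {k : ℕ}
    (hk : Even (N / 2) ∨ 1 ≤ k) : SecondWins (full N) badQ badP k :=
  win_mirror Fin.rev_rev hb he _ k ∅ ∅ le_rfl inv_empty (by rwa [fa_empty, axis_card]) h0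

theorem first_of_mirror (hb : ∀ X Y, Inv (N := N) Fin.rev ∅ X Y → badP X → badQ Y)
    (he : ∀ Y ⊆ full N, badQ Y ∨ badP (full N \ Y)) (h0 : ¬ badQ ∅)
    (h1 : ∀ e, ¬ badP {e}) (hN : ¬ Even (N / 2)) : FirstWins (full N) badP badQ 0 := by
  obtain ⟨e, hea⟩ : ∃ e, e ∈ axis (N := N) Fin.rev := by
    rw [← Finset.Nonempty, ← Finset.card_pos, axis_card]
    rcases Nat.eq_zero_or_pos (N / 2) with h | h
    · rw [h] at hN; exact absurd (by decide) hN
    · exact h
  have hea' := Finset.mem_filter.1 hea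
  have hI := (inv_empty (N := N) (σ := Fin.rev)).axis_left (f := e) hea'.1 hea'.2 (by simp)
    Fin.rev_rev
  refine WinsP.move e hea'.1 (by simp) (by simp) (h1 e)
    (win_mirror Fin.rev_rev hb he _ 0 _ _ le_rfl hI (Or.inl ?_) h0)
  rw [fa_left, fa_empty, Finset.card_erase_of_mem hea, axis_card]
  obtain ⟨m, hm⟩ := Nat.not_even_iff_odd.1 hN
  exact ⟨m, by omega⟩

theorem first_of_mirror_pass (hb : ∀ X Y, Inv (N := N) Fin.rev ∅ X Y → badP X → badQ Y)
    (he : ∀ Y ⊆ full N, badQ Y ∨ badP (full N \ Y)) (h0 : ¬ badQ ∅)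
    (h1 : ∀ e, ¬ badP {e}) : FirstWins (full N) badP badQ 1 := by
  by_cases hN : Even (N / 2)
  · exact WinsP.pass (second_of_mirror hb he h0 (Or.inl hN))
  · obtain ⟨e, hea⟩ : ∃ e, e ∈ axis (N := N) Fin.rev := by
      rw [← Finset.Nonempty, ← Finset.card_pos, axis_card]
      rcases Nat.eq_zero_or_pos (N / 2) with h | h
      · rw [h] at hN; exact absurd (by decide) hN
      · exact h
    have hea' := Finset.mem_filter.1 hea
    have hI := (inv_empty (N := N) (σ := Fin.rev)).axis_left (f := e) hea'.1 hea'.2 (by simp)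
      Fin.rev_rev
    exact WinsP.move e hea'.1 (by simp) (by simp) (h1 e)
      (win_mirror Fin.rev_rev hb he _ 1 _ _ le_rfl hI (Or.inr le_rfl) h0)

theorem second_of_pass
    (hb : ∀ X Y, Inv (N := N) Fin.rev ∅ X Y → (∀ e ∈ X, Sym2.map Fin.rev e ≠ e) → badP X → badQ Y)
    (he : ∀ Y ⊆ full N, badQ Y ∨ badP (full N \ Y)) (h0 : ¬ badQ ∅) :
    SecondWins (full N) badQ badP (N / 2) :=
  win_pass Fin.rev_rev hb he _ _ ∅ ∅ le_rfl inv_empty (by simp)
    (by rw [fa_empty, axis_card]) h0

theorem second_of_extra (hb : ∀ D X Y, Inv (N := N) Fin.rev D X Y → badP X → badQ Y)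
    (he : ∀ Y ⊆ full N, badQ Y ∨ badP (full N \ Y)) (h0 : ¬ badQ ∅) :
    SecondWins (full N) badQ badP 0 :=
  win_extra Fin.rev_rev hb he _ ∅ ∅ ∅ le_rfl inv_empty (Or.inl rfl) h0

theorem first_of_extra (hN : 2 ≤ N) (hb : ∀ D X Y, Inv (N := N) Fin.rev D X Y → badP X → badQ Y)
    (he : ∀ Y ⊆ full N, badQ Y ∨ badP (full N \ Y)) (h0 : ¬ badQ ∅)
    (h1 : ∀ e, ¬ badP {e}) : FirstWins (full N) badP badQ 0 := by
  obtain ⟨e, hea⟩ : ∃ e, e ∈ axis (N := N) Fin.rev := by
    rw [← Finset.Nonempty, ← Finset.card_pos, axis_card]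
    omega
  have hea' := Finset.mem_filter.1 hea
  have hI := (inv_empty (N := N) (σ := Fin.rev)).axis_left (f := e) hea'.1 hea'.2 (by simp)
    Fin.rev_rev
  exact WinsP.move e hea'.1 (by simp) (by simp) (h1 e)
    (win_extra Fin.rev_rev hb he _ ∅ _ _ le_rfl hI (Or.inl rfl) h0)

end strategies

/-! ### the theorems -/

theorem Inv.mir {σ : Fin N → Fin N} {D X Y : Finset (Sym2 (Fin N))} (h : Inv σ D X Y) :
    ∀ e ∈ X, ¬ (e ∈ D) → Sym2.map σ e ≠ e → Sym2.map σ e ∈ Y := fun e he hD hea =>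
  (h.hm e (h.hX he) hea hD).1 he

theorem Inv.mir0 {σ : Fin N → Fin N} {X Y : Finset (Sym2 (Fin N))} (h : Inv σ ∅ X Y) :
    ∀ e ∈ X, Sym2.map σ e ≠ e → Sym2.map σ e ∈ Y := fun e he hea =>
  (h.hm e (h.hX he) hea (by simp)).1 he

theorem main_minus {p : ℕ} (hp : 3 ≤ p) (hR : Ramsey p p N) :
    (Even (N / 2) → SecondWins (full N) (HasKm p) (HasK p) 0) ∧
    (¬ Even (N / 2) → FirstWins (full N) (HasK p) (HasKm p) 0) := by
  have hb : ∀ X Y, Inv (N := N) Fin.rev ∅ X Y → HasK p X → HasKm p Y := fun X Y h =>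
    hasKm_of Fin.rev_rev rev_fix h.hXY h.mir0 (by omega)
  have he : ∀ Y ⊆ full N, HasKm p Y ∨ HasK p (full N \ Y) := fun Y hY =>
    (hR Y hY).imp_left (HasK.toKm (by omega))
  exact ⟨fun h => second_of_mirror hb he (not_hasKm_empty hp) (Or.inl h),
    fun h => first_of_mirror hb he (not_hasKm_empty hp) (not_hasK_single hp) h⟩

theorem main_pass {p : ℕ} (hp : 3 ≤ p) (hR : Ramsey p p N) :
    SecondWins (full N) (HasK p) (HasK p) (N / 2) ∧
    FirstWins (full N) (HasK p) (HasK p) (N / 2 + 1) := by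
  have h := second_of_pass (N := N) (badP := HasK p) (badQ := HasK p)
    (fun X Y h ha => hasK_of_noaxis Fin.rev_rev rev_fix h.mir0 ha) hR
    (not_hasK_empty (by omega))
  exact ⟨h, WinsP.pass h⟩

theorem main_delete {p : ℕ} (hp : 3 ≤ p) (hR : Ramsey p p N) :
    SecondWins (full N) (HasK p) (HasK p) 0 ∨
      ∃ e ∈ full N, SecondWins ((full N).erase e) (HasK p) (HasK p) 0 := by
  refine second_or (fun X X' h => HasK.mono_right h) (not_hasK_empty (by omega)) ?_
  intro X Y hX hY h
  rcases hR Y hY with h1 | h1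
  · exact Or.inr h1
  · refine Or.inl (h1.mono_right ?_)
    intro e he
    rw [Finset.mem_sdiff] at he
    have := h he.1
    rw [Finset.mem_union] at this
    tauto

theorem main_succ {p : ℕ} (hp : 3 ≤ p) (hR : Ramsey p (p + 1) N) :
    (Even (N / 2) → SecondWins (full N) (HasK p) (HasK (p + 1)) 0) ∧
    (¬ Even (N / 2) → FirstWins (full N) (HasK (p + 1)) (HasK p) 0) ∧
    SecondWins (full N) (HasK p) (HasK (p + 1)) 1 ∧
    FirstWins (full N) (HasK (p + 1)) (HasK p) 1 := by
  have hb : ∀ X Y, Inv (N := N) Fin.rev ∅ X Y → HasK (p + 1) X → HasK p Y := fun X Y h =>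
    hasK_succ Fin.rev_rev rev_fix h.hXY h.mir0
  have h0 := not_hasK_empty (V := Fin N) (p := p) (by omega)
  have h1 := not_hasK_single (V := Fin N) (p := p + 1) (by omega)
  exact ⟨fun h => second_of_mirror hb hR h0 (Or.inl h), fun h => first_of_mirror hb hR h0 h1 h,
    second_of_mirror hb hR h0 (Or.inr le_rfl), first_of_mirror_pass hb hR h0 h1⟩

theorem main_two {p : ℕ} (hp : 3 ≤ p) (hN : 2 ≤ N) (hR : Ramsey p (p + 2) N) :
    SecondWins (full N) (HasK p) (HasK (p + 2)) 0 ∧
    FirstWins (full N) (HasK (p + 2)) (HasK p) 0 := by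
  have hb : ∀ D X Y, Inv (N := N) Fin.rev D X Y → HasK (p + 2) X → HasK p Y := fun D X Y h =>
    hasK_ext (D := fun e => e ∈ D) Fin.rev_rev rev_fix h.hXY
      (fun e e' he he' => Finset.card_le_one.1 h.hDc e he e' he') h.mir
  have h0 := not_hasK_empty (V := Fin N) (p := p) (by omega)
  have h1 := not_hasK_single (V := Fin N) (p := p + 2) (by omega)
  exact ⟨second_of_extra hb hR h0, first_of_extra hN hb hR h0 h1⟩

end RCG
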