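import Pool.Agent.Work.MP_1ad43c_co.Defs

/-!
# Near symmetry in the reverse clique game

`σ` is an involution of the vertices with at most one fixed vertex. The player `P` answers an edge
off the axis by its mirror image.
-/

set_option autoImplicit false

namespace RCG

open Finset

variable {N : ℕ}

/-! ### cliques -/

section clique

variable {V : Type*} [DecidableEq V]

theorem HasK.mono_left {k l : ℕ} (h : k ≤ l) {G : Finset (Sym2 V)} (hG : HasK l G) : HasK k G := by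
  obtain ⟨S, hS, hc⟩ := hG
  obtain ⟨T, hT, hTc⟩ := Finset.exists_subset_card_eq (s := S) (n := k) (by omega)
  exact ⟨T, hTc, fun x hx y hy hxy => hc x (hT hx) y (hT hy) hxy⟩

theorem HasK.toKm {k : ℕ} (hk : 2 ≤ k) {G : Finset (Sym2 V)} (hG : HasK k G) : HasKm k G := by
  obtain ⟨S, hS, hc⟩ := hG
  obtain ⟨u, hu, v, hv, huv⟩ := Finset.one_lt_card.1 (by omega : 1 < S.card)
  exact ⟨S, hS, u, hu, v, hv, huv, fun x hx y hy hxy _ => hc x hx y hy hxy⟩

variable {σ : V → V} (hσ : ∀ x, σ (σ x) = x) (hfix : ∀ x y, σ x = x → σ y = y → x = y)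
  {X Y : Finset (Sym2 V)} (hXY : ∀ e ∈ X, e ∉ Y) {D : Sym2 V → Prop}
  (hD : ∀ e e', D e → D e' → e = e')
  (hm : ∀ e ∈ X, ¬ D e → Sym2.map σ e ≠ e → Sym2.map σ e ∈ Y)

include hσ hXY hD hm

/-- a clique of `P` contains at most one axis pair -/
theorem one_pair {S : Finset V} (hS : ∀ x ∈ S, ∀ y ∈ S, x ≠ y → s(x, y) ∈ X) {x y : V}
    (hx : x ∈ S) (hsx : σ x ∈ S) (hxx : σ x ≠ x) (hy : y ∈ S) (hsy : σ y ∈ S) (hyy : σ y ≠ y) :
    y = x ∨ y = σ x := by
  by_contra hcon
  push Not at hcon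
  obtain ⟨h1, h2⟩ := hcon
  have h3 : x ≠ σ y := fun h => h2 (by rw [h, hσ])
  have h4 : σ x ≠ σ y := fun h => h1 (by rw [← hσ x, h, hσ])
  have e1 := hS x hx y hy (Ne.symm h1)
  have e2 := hS _ hsx _ hsy h4
  have e3 := hS x hx _ hsy h3
  have e4 := hS _ hsx y hy (Ne.symm h2)
  by_cases hd : D s(x, y)
  · have hd' : ¬ D s(x, σ y) := by
      intro h
      have := hD _ _ hd h
      rw [Sym2.eq_iff] at this
      rcases this with ⟨-, h5⟩ | ⟨h5, -⟩
      · exact hyy h5.symm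
      · exact h3 h5
    have h5 := hm _ e3 hd' (by
      rw [Sym2.map_mk, hσ]
      intro h
      rw [Sym2.eq_iff] at h
      rcases h with ⟨h6, -⟩ | ⟨h6, -⟩
      · exact hxx h6
      · exact h4 h6)
    rw [Sym2.map_mk, hσ] at h5
    exact hXY _ e4 h5
  · have h5 := hm _ e1 hd (by
      rw [Sym2.map_mk]
      intro h
      rw [Sym2.eq_iff] at h
      rcases h with ⟨h6, -⟩ | ⟨h6, -⟩
      · exact hxx h6
      · exact h2 h6.symm)
    rw [Sym2.map_mk] at h5
    exact hXY _ e2 h5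

/-- after removing one vertex a clique of `P` contains no axis pair -/
theorem drop_pair {S : Finset V} (hS : ∀ x ∈ S, ∀ y ∈ S, x ≠ y → s(x, y) ∈ X) :
    ∃ T ⊆ S, S.card ≤ T.card + 1 ∧ ∀ x ∈ T, σ x ∈ T → σ x = x := by
  by_cases h : ∃ x ∈ S, σ x ∈ S ∧ σ x ≠ x
  · obtain ⟨x, hx, hsx, hxx⟩ := h
    refine ⟨S.erase x, Finset.erase_subset _ _, by rw [Finset.card_erase_of_mem hx]; omega, ?_⟩
    intro y hy hsy
    by_contra hyy
    rcases one_pair hσ hXY hD hm hS hx hsx hxx (Finset.mem_of_mem_erase hy)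
      (Finset.mem_of_mem_erase hsy) hyy with h1 | h1
    · exact Finset.ne_of_mem_erase hy h1
    · exact Finset.ne_of_mem_erase hsy (by rw [h1, hσ])
  · push Not at h
    exact ⟨S, Finset.Subset.refl _, by omega, h⟩

include hfix

omit hXY hD in
/-- a clique of `P` without axis pairs and without extra edge is mapped to a clique of `Q` -/
theorem clique_image {S : Finset V} (hS : ∀ x ∈ S, ∀ y ∈ S, x ≠ y → s(x, y) ∈ X)
    (h1 : ∀ x ∈ S, σ x ∈ S → σ x = x) (h2 : ∀ x ∈ S, ∀ y ∈ S, x ≠ y → ¬ D s(x, y)) :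
    HasK S.card Y := by
  have hinj : Function.Injective σ := fun x y h => by rw [← hσ x, h, hσ]
  refine ⟨S.image σ, Finset.card_image_of_injective _ hinj, ?_⟩
  intro u hu v hv huv
  obtain ⟨x, hx, rfl⟩ := Finset.mem_image.1 hu
  obtain ⟨y, hy, rfl⟩ := Finset.mem_image.1 hv
  have hxy : x ≠ y := fun h => huv (by rw [h])
  have := hm _ (hS x hx y hy hxy) (h2 x hx y hy hxy) (by
    rw [Sym2.map_mk]
    intro h
    rw [Sym2.eq_iff] at h
    rcases h with ⟨h3, h4⟩ | ⟨h3, h4⟩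
    · exact hxy (hfix x y h3 h4)
    · exact hxy ((h1 x hx (by rw [h3]; exact hy)).symm.trans h3))
  rwa [Sym2.map_mk] at this

/-- the case of an extra edge: two vertices are lost -/
theorem hasK_ext {p : ℕ} (h : HasK (p + 2) X) : HasK p Y := by
  obtain ⟨S, hSc, hS⟩ := h
  obtain ⟨T, hTS, hTc, hT⟩ := drop_pair hσ hXY hD hm hS
  by_cases h0 : ∃ x ∈ T, ∃ y ∈ T, x ≠ y ∧ D s(x, y)
  · obtain ⟨x, hx, y, hy, hxy, hd⟩ := h0
    have h1 := clique_image hσ hfix hm (S := T.erase x)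
      (fun u hu v hv => hS u (hTS (Finset.mem_of_mem_erase hu)) v (hTS (Finset.mem_of_mem_erase hv)))
      (fun u hu hv => hT u (Finset.mem_of_mem_erase hu) (Finset.mem_of_mem_erase hv))
      (by
        intro u hu v hv huv hd'
        have := hD _ _ hd hd'
        rw [Sym2.eq_iff] at this
        rcases this with ⟨h3, -⟩ | ⟨h3, -⟩
        · exact Finset.ne_of_mem_erase hu h3.symm
        · exact Finset.ne_of_mem_erase hv h3.symm)
    refine h1.mono_left ?_
    rw [Finset.card_erase_of_mem hx]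
    omega
  · push Not at h0
    exact (clique_image hσ hfix hm (S := T) (fun u hu v hv => hS u (hTS hu) v (hTS hv)) hT
      h0).mono_left (by omega)

end clique

section clique2

variable {V : Type*} [DecidableEq V] {σ : V → V} (hσ : ∀ x, σ (σ x) = x)
  (hfix : ∀ x y, σ x = x → σ y = y → x = y)
  {X Y : Finset (Sym2 V)} (hXY : ∀ e ∈ X, e ∉ Y)
  (hm : ∀ e ∈ X, Sym2.map σ e ≠ e → Sym2.map σ e ∈ Y)

include hσ hXY hm hfix

/-- without extra edge one vertex is lost -/
theorem hasK_succ {p : ℕ} (h : HasK (p + 1) X) : HasK p Y := by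
  obtain ⟨S, hSc, hS⟩ := h
  have hm' : ∀ e ∈ X, ¬ (fun _ => False : Sym2 V → Prop) e → Sym2.map σ e ≠ e →
      Sym2.map σ e ∈ Y := fun e he _ => hm e he
  obtain ⟨T, hTS, hTc, hT⟩ := drop_pair (D := fun _ => False) hσ hXY (fun _ _ h => h.elim) hm' hS
  exact (clique_image hσ hfix hm' (S := T) (fun u hu v hv => hS u (hTS hu) v (hTS hv)) hT
    (fun _ _ _ _ _ => id)).mono_left (by omega)

/-- a clique of `P` gives a clique of `Q` minus an edge -/
theorem hasKm_of {p : ℕ} (hp : 2 ≤ p) (h : HasK p X) : HasKm p Y := by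
  obtain ⟨S, hSc, hS⟩ := h
  have hm' : ∀ e ∈ X, ¬ (fun _ => False : Sym2 V → Prop) e → Sym2.map σ e ≠ e →
      Sym2.map σ e ∈ Y := fun e he _ => hm e he
  have hinj : Function.Injective σ := fun x y h => by rw [← hσ x, h, hσ]
  by_cases h : ∃ x ∈ S, σ x ∈ S ∧ σ x ≠ x
  · obtain ⟨x, hx, hsx, hxx⟩ := h
    refine ⟨S.image σ, by rw [Finset.card_image_of_injective _ hinj, hSc], σ x,
      Finset.mem_image_of_mem _ hx, x, Finset.mem_image.2 ⟨σ x, hsx, hσ x⟩, hxx, ?_⟩
    intro u hu v hv huv hne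
    obtain ⟨y, hy, rfl⟩ := Finset.mem_image.1 hu
    obtain ⟨z, hz, rfl⟩ := Finset.mem_image.1 hv
    have hyz : y ≠ z := fun h => huv (by rw [h])
    have := hm _ (hS y hy z hz hyz) (by
      rw [Sym2.map_mk]
      intro h
      rw [Sym2.eq_iff] at h
      rcases h with ⟨h3, h4⟩ | ⟨h3, h4⟩
      · exact hyz (hfix y z h3 h4)
      · have hyy : σ y ≠ y := by rw [h3]; exact Ne.symm hyz
        apply hne
        rcases one_pair (D := fun _ => False) hσ hXY (fun _ _ h => h.elim) hm' hS hx hsx hxx hy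
          (by rw [h3]; exact hz) hyy with h5 | h5
        · rw [h5] at h3 ⊢
          rw [← h3, hσ]
        · rw [h5, hσ] at h3
          rw [h5, hσ, ← h3]
          exact Sym2.eq_swap)
    rwa [Sym2.map_mk] at this
  · push Not at h
    refine HasK.toKm hp ?_
    have := clique_image hσ hfix hm' (S := S) hS h (fun _ _ _ _ _ => id)
    rwa [hSc] at this

omit hXY in
/-- without axis edges nothing is lost -/
theorem hasK_of_noaxis {p : ℕ} (ha : ∀ e ∈ X, Sym2.map σ e ≠ e) (h : HasK p X) : HasK p Y := by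
  obtain ⟨S, hSc, hS⟩ := h
  have hm' : ∀ e ∈ X, ¬ (fun _ => False : Sym2 V → Prop) e → Sym2.map σ e ≠ e →
      Sym2.map σ e ∈ Y := fun e he _ => hm e he
  have := clique_image hσ hfix hm' (S := S) hS (by
    intro x hx hsx
    by_contra hxx
    refine ha _ (hS x hx _ hsx (Ne.symm hxx)) ?_
    rw [Sym2.map_mk, hσ]
    exact Sym2.eq_swap) (fun _ _ _ _ _ => id)
  rwa [hSc] at this

end clique2

end RCG
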