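import Pool.Agent.Work.MP_1ad43c_co.Defs

/-!
# One tempo decides the reverse clique game (definitions)
-/

set_option autoImplicit false

namespace RCG

open Finset

/-- The edge set `G` contains complete graphs on `k` vertices without a common edge: after the
deletion of any edge there is still a complete graph on `k` vertices. -/
def HasSpreadK {V : Type*} [DecidableEq V] (k : ℕ) (G : Finset (Sym2 V)) : Prop :=
  ∀ h : Sym2 V, HasK k (G.erase h)

/-- `K_N` with an additional edge from one of its vertices to a new vertex -/
def pendant (N : ℕ) : Finset (Sym2 (Fin (N + 1))) :=
  insert s(0, Fin.last N) ((full N).image (Sym2.map Fin.castSucc))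

end RCG
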