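import Pool.Agent.Work.MP_1ad43c_co.Final
import Pool.Agent.Work.MP_1ad43c_co.OneTempoDefs

/-!
# One tempo decides the reverse clique game

Strategy stealing in a game without draws, in which an additional edge never helps its owner: each
player wins if he may pass once, and each player wins if his own anti-goal is relaxed in such a way
that one additional edge is harmless.
-/

set_option autoImplicit false

namespace RCG

open Finset

section general

variable {E : Type*} [DecidableEq E] {B : Finset E} {bad badP : Finset E → Prop}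

theorem exists_free' {bP bQ : Finset E → Prop}
    (hnd : ∀ X Y : Finset E, X ⊆ B → Y ⊆ B → B ⊆ X ∪ Y → bP X ∨ bQ Y)
    {X Y : Finset E} (hX : X ⊆ B) (hY : Y ⊆ B) (hp : ¬ bP X) (hq : ¬ bQ Y) :
    ∃ e ∈ B, e ∉ X ∧ e ∉ Y := by
  by_contra hcon
  push Not at hcon
  have h1 : B ⊆ X ∪ Y := by
    intro e he
    rw [mem_union]
    by_contra h2
    push Not at h2
    exact h2.2 (hcon e he h2.1)
  rcases hnd X Y hX hY h1 with h | h
  · exact hp h
  · exact hq h

/-- **Stealing with a relaxed anti-goal.**  In the imagined position `P` owns `X` and `Q` owns `Y`,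
in the real one `P` owns `X'` and `Q` owns `Y'`; the edge `x` is claimed in the real position
only. -/
theorem steal (hmono : ∀ X X' : Finset E, X ⊆ X' → bad X → bad X')
    (hmonoP : ∀ X X' : Finset E, X ⊆ X' → badP X → badP X')
    (hrel : ∀ (X : Finset E) (x : E), ¬ bad X → ¬ badP (insert x X))
    (hnd : ∀ X Y : Finset E, X ⊆ B → Y ⊆ B → B ⊆ X ∪ Y → badP X ∨ bad Y) (n : ℕ) :
    ∀ (X Y X' Y' : Finset E) (x : E), (B \ (X' ∪ Y')).card ≤ n → X' ⊆ B → Y' ⊆ B → x ∉ X →
      x ∉ Y → X' ∪ Y' = insert x (X ∪ Y) → X' ⊆ insert x X → Y ⊆ Y' → ¬ bad X →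
      (WinsP B bad bad 0 X Y → WinsP B badP bad 0 X' Y') ∧
      (¬ bad Y' → WinsQ B bad bad 0 X Y → WinsQ B badP bad 0 X' Y') := by
  induction n with
  | zero =>
    intro X Y X' Y' x hn hX' hY' hxX hxY hU hXX hYY hb
    have hbP : ¬ badP X' := fun h => hrel X x hb (hmonoP _ _ hXX h)
    have hbY : bad Y' := by
      by_contra hbY
      obtain ⟨e, he, heX, heY⟩ := exists_free' hnd hX' hY' hbP hbY
      have := card_eq_zero.1 (Nat.le_zero.1 hn)
      rw [eq_empty_iff_forall_notMem] at this
      exact this e (by rw [mem_sdiff, mem_union]; tauto)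
    exact ⟨fun _ => WinsP.lost hbY, fun h => absurd hbY h⟩
  | succ n ih =>
    intro X Y X' Y' x hn hX' hY' hxX hxY hU hXX hYY hb
    have hbP : ¬ badP X' := fun h => hrel X x hb (hmonoP _ _ hXX h)
    have hfree : ∀ e, e ∉ X' → e ∉ Y' → e ≠ x ∧ e ∉ X ∧ e ∉ Y := by
      intro e h1 h2
      have h3 : e ∉ insert x (X ∪ Y) := by
        rw [← hU, mem_union]
        tauto
      rw [mem_insert, mem_union] at h3
      tauto
    constructor
    · intro hw
      by_cases hbY : bad Y'
      · exact WinsP.lost hbY
      cases hw with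
      | lost h => exact absurd (hmono _ _ hYY h) hbY
      | move e he heX heY heb h =>
        by_cases hex : e = x
        · subst hex
          obtain ⟨f, hf, hfX', hfY'⟩ := exists_free' hnd hX' hY' hbP hbY
          obtain ⟨hfe, hfX, hfY⟩ := hfree f hfX' hfY'
          have hsub : insert f X' ⊆ insert f (insert e X) := insert_subset_insert f hXX
          have hlt := free_card_lt (B := B) (X' := insert f X') (Y' := Y') hf hfX' hfY'
            (subset_insert f X') (Subset.refl _) (Or.inl (mem_insert_self f X'))
          refine WinsP.move f hf hfX' hfY' (fun h1 => hrel _ f heb (hmonoP _ _ hsub h1)) ?_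
          refine (ih (insert e X) Y (insert f X') Y' f (by omega) (insert_subset hf hX') hY' ?_ hfY
            ?_ hsub hYY heb).2 hbY h
          · rw [mem_insert]
            tauto
          · rw [insert_union, insert_union, hU]
        · have he' : e ∉ X' ∪ Y' := by
            rw [hU, mem_insert, mem_union]
            tauto
          rw [mem_union, not_or] at he'
          have hsub : insert e X' ⊆ insert x (insert e X) := by
            rw [Finset.insert_comm x e X]
            exact insert_subset_insert e hXX
          have hlt := free_card_lt (B := B) (X' := insert e X') (Y' := Y') he he'.1 he'.2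
            (subset_insert e X') (Subset.refl _) (Or.inl (mem_insert_self e X'))
          refine WinsP.move e he he'.1 he'.2 (fun h1 => hrel _ x heb (hmonoP _ _ hsub h1)) ?_
          refine (ih (insert e X) Y (insert e X') Y' x (by omega) (insert_subset he hX') hY' ?_ hxY
            ?_ hsub hYY heb).2 hbY h
          · rw [mem_insert]
            tauto
          · rw [insert_union, insert_union, hU, Finset.insert_comm]
    · intro hbY hw
      cases hw with
      | mk h0 h =>
        refine WinsQ.mk (exists_free' hnd hX' hY' hbP hbY) ?_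
        intro e he heX' heY'
        obtain ⟨hex, heX, heY⟩ := hfree e heX' heY'
        have hlt := free_card_lt (B := B) (X' := X') (Y' := insert e Y') he heX' heY'
          (Subset.refl _) (subset_insert e Y') (Or.inr (mem_insert_self e Y'))
        refine (ih X (insert e Y) X' (insert e Y') x (by omega) hX' (insert_subset he hY') hxX ?_
          ?_ hXX (insert_subset_insert e hYY) hb).1 (h e he heX heY)
        · rw [mem_insert]
          rintro (h1 | h1)
          · exact hex h1.symm
          · exact hxY h1
        · rw [union_insert, hU, union_insert, Finset.insert_comm]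

/-- Fewer bad sets do not hurt. -/
theorem relax {bP bP' bQ : Finset E → Prop} (hPb : ∀ X : Finset E, bP' X → bP X) (n : ℕ) :
    ∀ (X Y : Finset E), (B \ (X ∪ Y)).card ≤ n →
      (WinsP B bP bQ 0 X Y → WinsP B bP' bQ 0 X Y) ∧
      (WinsQ B bP bQ 0 X Y → WinsQ B bP' bQ 0 X Y) := by
  induction n with
  | zero =>
    intro X Y hn
    have h0 := card_eq_zero.1 (Nat.le_zero.1 hn)
    rw [eq_empty_iff_forall_notMem] at h0
    constructor
    · intro hw
      cases hw with
      | lost h => exact WinsP.lost h
      | move e he heX heY _ _ =>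
        exact absurd (mem_sdiff.2 ⟨he, by rw [mem_union]; tauto⟩) (h0 e)
    · intro hw
      cases hw with
      | mk h1 h =>
        obtain ⟨e, he, heX, heY⟩ := h1
        exact absurd (mem_sdiff.2 ⟨he, by rw [mem_union]; tauto⟩) (h0 e)
  | succ n ih =>
    intro X Y hn
    constructor
    · intro hw
      cases hw with
      | lost h => exact WinsP.lost h
      | move e he heX heY heb h =>
        have hlt := free_card_lt (B := B) (X' := insert e X) (Y' := Y) he heX heY
          (subset_insert e X) (Subset.refl _) (Or.inl (mem_insert_self e X))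
        exact WinsP.move e he heX heY (fun h1 => heb (hPb _ h1)) ((ih _ _ (by omega)).2 h)
    · intro hw
      cases hw with
      | mk h1 h =>
        refine WinsQ.mk h1 fun e he heX heY => ?_
        have hlt := free_card_lt (B := B) (X' := X) (Y' := insert e Y) he heX heY
          (Subset.refl _) (subset_insert e Y) (Or.inr (mem_insert_self e Y))
        exact (ih _ _ (by omega)).1 (h e he heX heY)

/-- A smaller own set and a larger set of the opponent do not hurt; the claimed edges are the
same. -/
theorem shift (hmono : ∀ X X' : Finset E, X ⊆ X' → bad X → bad X') (n : ℕ) :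
    ∀ (X Y X' Y' : Finset E), (B \ (X ∪ Y)).card ≤ n → X' ∪ Y' = X ∪ Y → X' ⊆ X → Y ⊆ Y' →
      (WinsP B bad bad 0 X Y → WinsP B bad bad 0 X' Y') ∧
      (WinsQ B bad bad 0 X Y → WinsQ B bad bad 0 X' Y') := by
  induction n with
  | zero =>
    intro X Y X' Y' hn hU hXX hYY
    have h0 := card_eq_zero.1 (Nat.le_zero.1 hn)
    rw [eq_empty_iff_forall_notMem] at h0
    constructor
    · intro hw
      cases hw with
      | lost h => exact WinsP.lost (hmono _ _ hYY h)
      | move e he heX heY _ _ =>
        exact absurd (mem_sdiff.2 ⟨he, by rw [mem_union]; tauto⟩) (h0 e)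
    · intro hw
      cases hw with
      | mk h1 h =>
        obtain ⟨e, he, heX, heY⟩ := h1
        exact absurd (mem_sdiff.2 ⟨he, by rw [mem_union]; tauto⟩) (h0 e)
  | succ n ih =>
    intro X Y X' Y' hn hU hXX hYY
    have hfr : ∀ e, (e ∉ X' ∧ e ∉ Y') ↔ (e ∉ X ∧ e ∉ Y) := by
      intro e
      have h1 : e ∈ X' ∪ Y' ↔ e ∈ X ∪ Y := by rw [hU]
      rw [mem_union, mem_union] at h1
      tauto
    constructor
    · intro hw
      cases hw with
      | lost h => exact WinsP.lost (hmono _ _ hYY h)
      | move e he heX heY heb h =>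
        have hlt := free_card_lt (B := B) (X' := insert e X) (Y' := Y) he heX heY
          (subset_insert e X) (Subset.refl _) (Or.inl (mem_insert_self e X))
        obtain ⟨h2, h3⟩ := (hfr e).2 ⟨heX, heY⟩
        refine WinsP.move e he h2 h3
          (fun h1 => heb (hmono _ _ (insert_subset_insert e hXX) h1)) ?_
        exact (ih _ _ _ _ (by omega) (by rw [insert_union, insert_union, hU])
          (insert_subset_insert e hXX) hYY).2 h
    · intro hw
      cases hw with
      | mk h1 h =>
        obtain ⟨e, he, heX, heY⟩ := h1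
        refine WinsQ.mk ⟨e, he, (hfr e).2 ⟨heX, heY⟩⟩ ?_
        intro e he heX' heY'
        obtain ⟨heX, heY⟩ := (hfr e).1 ⟨heX', heY'⟩
        have hlt := free_card_lt (B := B) (X' := X) (Y' := insert e Y) he heX heY
          (Subset.refl _) (subset_insert e Y) (Or.inr (mem_insert_self e Y))
        exact (ih _ _ _ _ (by omega) (by rw [union_insert, union_insert, hU]) hXX
          (insert_subset_insert e hYY)).1 (h e he heX heY)

/-- **Stealing with a pass.**  In the imagined position `x` is unclaimed, in the real one it belongs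
to `Q`. -/
theorem steal_pass (hmono : ∀ X X' : Finset E, X ⊆ X' → bad X → bad X')
    (hnd : ∀ X Y : Finset E, X ⊆ B → Y ⊆ B → B ⊆ X ∪ Y → bad X ∨ bad Y) {x : E} (hx : x ∈ B)
    (n : ℕ) : ∀ (X Y : Finset E), (B \ (X ∪ insert x Y)).card ≤ n → X ⊆ B → Y ⊆ B → x ∉ X →
      x ∉ Y → ¬ bad X →
      (WinsP B bad bad 0 X Y → WinsP B bad bad 1 X (insert x Y)) ∧
      (¬ bad (insert x Y) → WinsQ B bad bad 0 X Y → WinsQ B bad bad 1 X (insert x Y)) := by
  induction n with
  | zero =>
    intro X Y hn hX hY hxX hxY hb
    have hbY : bad (insert x Y) := by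
      by_contra hbY
      obtain ⟨e, he, heX, heY⟩ := exists_free' hnd hX (insert_subset hx hY) hb hbY
      have := card_eq_zero.1 (Nat.le_zero.1 hn)
      rw [eq_empty_iff_forall_notMem] at this
      exact this e (by rw [mem_sdiff, mem_union]; tauto)
    exact ⟨fun _ => WinsP.lost hbY, fun h => absurd hbY h⟩
  | succ n ih =>
    intro X Y hn hX hY hxX hxY hb
    constructor
    · intro hw
      by_cases hbY : bad (insert x Y)
      · exact WinsP.lost hbY
      cases hw with
      | lost h => exact absurd (hmono _ _ (subset_insert x Y) h) hbY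
      | move e he heX heY heb h =>
        by_cases hex : e = x
        · subst hex
          refine WinsP.pass ((shift hmono _ (insert e X) Y X (insert e Y) le_rfl ?_
            (subset_insert e X) (subset_insert e Y)).2 h)
          rw [union_insert, insert_union]
        · have heY' : e ∉ insert x Y := by
            rw [mem_insert]
            tauto
          have hlt := free_card_lt (B := B) (X' := insert e X) (Y' := insert x Y) he heX heY'
            (subset_insert e X) (Subset.refl _) (Or.inl (mem_insert_self e X))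
          refine WinsP.move e he heX heY' heb ?_
          refine (ih (insert e X) Y (by omega) (insert_subset he hX) hY ?_ hxY heb).2 hbY h
          rw [mem_insert]
          tauto
    · intro hbY hw
      cases hw with
      | mk h0 h =>
        refine WinsQ.mk (exists_free' hnd hX (insert_subset hx hY) hb hbY) ?_
        intro e he heX heY'
        rw [mem_insert, not_or] at heY'
        have hlt := free_card_lt (B := B) (X' := X) (Y' := insert e (insert x Y)) he heX
          (by rw [mem_insert, not_or]; exact heY') (Subset.refl _) (subset_insert e _)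
          (Or.inr (mem_insert_self e _))
        rw [Finset.insert_comm e x Y] at hlt ⊢
        refine (ih X (insert e Y) (by omega) hX (insert_subset he hY) hxX ?_ hb).1
          (h e he heX heY'.2)
        rw [mem_insert]
        rintro (h1 | h1)
        · exact heY'.1 h1.symm
        · exact hxY h1

theorem add_pass (n : ℕ) : ∀ (X Y : Finset E), (B \ (X ∪ Y)).card ≤ n →
      (WinsP B bad bad 0 X Y → WinsP B bad bad 1 X Y) ∧
      (WinsQ B bad bad 0 X Y → WinsQ B bad bad 1 X Y) := by
  induction n with
  | zero =>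
    intro X Y hn
    have h0 := card_eq_zero.1 (Nat.le_zero.1 hn)
    rw [eq_empty_iff_forall_notMem] at h0
    constructor
    · intro hw
      cases hw with
      | lost h => exact WinsP.lost h
      | move e he heX heY _ _ =>
        exact absurd (mem_sdiff.2 ⟨he, by rw [mem_union]; tauto⟩) (h0 e)
    · intro hw
      cases hw with
      | mk h1 h =>
        obtain ⟨e, he, heX, heY⟩ := h1
        exact absurd (mem_sdiff.2 ⟨he, by rw [mem_union]; tauto⟩) (h0 e)
  | succ n ih =>
    intro X Y hn
    constructor
    · intro hw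
      cases hw with
      | lost h => exact WinsP.lost h
      | move e he heX heY heb h =>
        have hlt := free_card_lt (B := B) (X' := insert e X) (Y' := Y) he heX heY
          (subset_insert e X) (Subset.refl _) (Or.inl (mem_insert_self e X))
        exact WinsP.move e he heX heY heb ((ih _ _ (by omega)).2 h)
    · intro hw
      cases hw with
      | mk h1 h =>
        refine WinsQ.mk h1 fun e he heX heY => ?_
        have hlt := free_card_lt (B := B) (X' := X) (Y' := insert e Y) he heX heY
          (Subset.refl _) (subset_insert e Y) (Or.inr (mem_insert_self e Y))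
        exact (ih _ _ (by omega)).1 (h e he heX heY)

/-- Positions are moved by injections of the edges. -/
theorem transport {E' : Type*} [DecidableEq E'] {bP bQ : Finset E → Prop}
    {bP' bQ' : Finset E' → Prop} {φ : E → E'} (hφ : Function.Injective φ)
    (hP : ∀ X : Finset E, bP' (X.image φ) ↔ bP X)
    (hQ : ∀ X : Finset E, bQ' (X.image φ) ↔ bQ X) (n : ℕ) : ∀ (X Y : Finset E),
    (B \ (X ∪ Y)).card ≤ n →
      (WinsP B bP bQ 0 X Y → WinsP (B.image φ) bP' bQ' 0 (X.image φ) (Y.image φ)) ∧
      (WinsQ B bP bQ 0 X Y → WinsQ (B.image φ) bP' bQ' 0 (X.image φ) (Y.image φ)) := by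
  have hmem : ∀ (e : E) (X : Finset E), φ e ∈ X.image φ ↔ e ∈ X := by
    intro e X
    rw [mem_image]
    exact ⟨fun ⟨a, ha, h⟩ => hφ h ▸ ha, fun h => ⟨e, h, rfl⟩⟩
  induction n with
  | zero =>
    intro X Y hn
    have h0 := card_eq_zero.1 (Nat.le_zero.1 hn)
    rw [eq_empty_iff_forall_notMem] at h0
    constructor
    · intro hw
      cases hw with
      | lost h => exact WinsP.lost ((hQ Y).2 h)
      | move e he heX heY _ _ =>
        exact absurd (mem_sdiff.2 ⟨he, by rw [mem_union]; tauto⟩) (h0 e)
    · intro hw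
      cases hw with
      | mk h1 h =>
        obtain ⟨e, he, heX, heY⟩ := h1
        exact absurd (mem_sdiff.2 ⟨he, by rw [mem_union]; tauto⟩) (h0 e)
  | succ n ih =>
    intro X Y hn
    constructor
    · intro hw
      cases hw with
      | lost h => exact WinsP.lost ((hQ Y).2 h)
      | move e he heX heY heb h =>
        have hlt := free_card_lt (B := B) (X' := insert e X) (Y' := Y) he heX heY
          (subset_insert e X) (Subset.refl _) (Or.inl (mem_insert_self e X))
        refine WinsP.move (φ e) ((hmem e B).2 he) (fun h1 => heX ((hmem e X).1 h1))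
          (fun h1 => heY ((hmem e Y).1 h1)) ?_ ?_
        · rw [← image_insert, hP]
          exact heb
        · rw [← image_insert]
          exact (ih _ _ (by omega)).2 h
    · intro hw
      cases hw with
      | mk h1 h =>
        obtain ⟨e, he, heX, heY⟩ := h1
        refine WinsQ.mk ⟨φ e, (hmem e B).2 he, fun h1 => heX ((hmem e X).1 h1),
          fun h1 => heY ((hmem e Y).1 h1)⟩ ?_
        intro f hf hfX hfY
        obtain ⟨e, he, rfl⟩ := mem_image.1 hf
        have heX : e ∉ X := fun h1 => hfX ((hmem e X).2 h1)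
        have heY : e ∉ Y := fun h1 => hfY ((hmem e Y).2 h1)
        have hlt := free_card_lt (B := B) (X' := X) (Y' := insert e Y) he heX heY
          (Subset.refl _) (subset_insert e Y) (Or.inr (mem_insert_self e Y))
        rw [← image_insert]
        exact (ih _ _ (by omega)).1 (h e he heX heY)

/-- A harmless additional edge which belongs to `P` changes nothing. -/
theorem add_token {t : E} (htB : t ∉ B) (ht : ∀ X ⊆ B, bad (insert t X) → bad X) (n : ℕ) :
    ∀ (X Y : Finset E), (B \ (X ∪ Y)).card ≤ n → X ⊆ B →
      (WinsP B bad bad 0 X Y → WinsP (insert t B) bad bad 0 (insert t X) Y) ∧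
      (WinsQ B bad bad 0 X Y → WinsQ (insert t B) bad bad 0 (insert t X) Y) := by
  induction n with
  | zero =>
    intro X Y hn _
    have h0 := card_eq_zero.1 (Nat.le_zero.1 hn)
    rw [eq_empty_iff_forall_notMem] at h0
    constructor
    · intro hw
      cases hw with
      | lost h => exact WinsP.lost h
      | move e he heX heY _ _ =>
        exact absurd (mem_sdiff.2 ⟨he, by rw [mem_union]; tauto⟩) (h0 e)
    · intro hw
      cases hw with
      | mk h1 h =>
        obtain ⟨e, he, heX, heY⟩ := h1
        exact absurd (mem_sdiff.2 ⟨he, by rw [mem_union]; tauto⟩) (h0 e)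
  | succ n ih =>
    intro X Y hn hX
    constructor
    · intro hw
      cases hw with
      | lost h => exact WinsP.lost h
      | move e he heX heY heb h =>
        have hlt := free_card_lt (B := B) (X' := insert e X) (Y' := Y) he heX heY
          (subset_insert e X) (Subset.refl _) (Or.inl (mem_insert_self e X))
        have het : e ≠ t := fun h1 => htB (h1 ▸ he)
        refine WinsP.move e (mem_insert_of_mem he) ?_ heY ?_ ?_
        · rw [mem_insert, not_or]
          exact ⟨het, heX⟩
        · rw [Finset.insert_comm]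
          exact fun h1 => heb (ht _ (insert_subset he hX) h1)
        · rw [Finset.insert_comm]
          exact (ih _ _ (by omega) (insert_subset he hX)).2 h
    · intro hw
      cases hw with
      | mk h1 h =>
        obtain ⟨e, he, heX, heY⟩ := h1
        have hne : ∀ f ∈ B, f ≠ t := fun f hf h1 => htB (h1 ▸ hf)
        refine WinsQ.mk ⟨e, mem_insert_of_mem he, ?_, heY⟩ ?_
        · rw [mem_insert, not_or]
          exact ⟨hne e he, heX⟩
        intro f hf hfX hfY
        rw [mem_insert, not_or] at hfX
        have hfB : f ∈ B := (mem_insert.1 hf).resolve_left hfX.1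
        have hlt := free_card_lt (B := B) (X' := X) (Y' := insert f Y) hfB hfX.2 hfY
          (Subset.refl _) (subset_insert f Y) (Or.inr (mem_insert_self f Y))
        exact (ih _ _ (by omega) hX).1 (h f hfB hfX.2 hfY)

/-- **One pass decides.** -/
theorem one_pass (hmono : ∀ X X' : Finset E, X ⊆ X' → bad X → bad X') (h0 : ¬ bad ∅)
    (hnd : ∀ X Y : Finset E, X ⊆ B → Y ⊆ B → B ⊆ X ∪ Y → bad X ∨ bad Y) :
    SecondWins B bad bad 1 ∧ FirstWins B bad bad 1 := by
  rcases determined (B := B) _ bad bad hnd ∅ ∅ le_rfl (empty_subset _) (empty_subset _) h0 h0 with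
    h | h
  · exact ⟨(add_pass _ ∅ ∅ le_rfl).2 h, WinsP.pass h⟩
  · refine ⟨WinsQ.mk (exists_free' hnd (empty_subset _) (empty_subset _) h0 h0) ?_,
      (add_pass _ ∅ ∅ le_rfl).1 h⟩
    intro e he _ _
    have h1 := (steal_pass hmono hnd he _ ∅ ∅ le_rfl (empty_subset _) (empty_subset _) (by simp)
      (by simp) h0).1 h
    exact h1

/-- **A relaxed anti-goal decides.** -/
theorem one_edge (hmono : ∀ X X' : Finset E, X ⊆ X' → bad X → bad X') (h0 : ¬ bad ∅)
    (hnd : ∀ X Y : Finset E, X ⊆ B → Y ⊆ B → B ⊆ X ∪ Y → bad X ∨ bad Y)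
    (hmonoP : ∀ X X' : Finset E, X ⊆ X' → badP X → badP X')
    (hrel : ∀ (X : Finset E) (x : E), ¬ bad X → ¬ badP (insert x X))
    (hndP : ∀ X Y : Finset E, X ⊆ B → Y ⊆ B → B ⊆ X ∪ Y → badP X ∨ bad Y) :
    SecondWins B bad badP 0 ∧ FirstWins B badP bad 0 := by
  have hPb : ∀ X : Finset E, badP X → bad X := by
    intro X h
    by_contra hb
    rcases X.eq_empty_or_nonempty with rfl | ⟨x, hx⟩
    · by_cases hB : ∃ x : E, True
      · obtain ⟨x, -⟩ := hB
        exact hrel ∅ x hb (hmonoP _ _ (empty_subset _) h)
      · rcases hnd ∅ ∅ (empty_subset _) (empty_subset _) (fun e _ => absurd ⟨e, trivial⟩ hB) with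
          h1 | h1
        · exact h0 h1
        · exact h0 h1
    · apply hrel X x hb
      rwa [insert_eq_of_mem hx]
  obtain ⟨x, hx, -, -⟩ := exists_free' hnd (empty_subset _) (empty_subset _) h0 h0
  rcases determined (B := B) _ bad bad hnd ∅ ∅ le_rfl (empty_subset _) (empty_subset _) h0 h0 with
    h | h
  · refine ⟨(relax hPb _ ∅ ∅ le_rfl).2 h, ?_⟩
    refine WinsP.move x hx (by simp) (by simp) (hrel ∅ x h0) ?_
    exact (steal hmono hmonoP hrel hndP _ ∅ ∅ (insert x ∅) ∅ x le_rfl
      (insert_subset hx (empty_subset _)) (empty_subset _) (by simp) (by simp) (by simp)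
      (Subset.refl _) (Subset.refl _) h0).2 h0 h
  · refine ⟨WinsQ.mk ⟨x, hx, by simp, by simp⟩ ?_, (relax hPb _ ∅ ∅ le_rfl).1 h⟩
    intro e he _ _
    exact (steal hmono hmonoP hrel hndP _ ∅ ∅ ∅ (insert e ∅) e le_rfl (empty_subset _)
      (insert_subset he (empty_subset _)) (by simp) (by simp) (by simp) (empty_subset _)
      (empty_subset _) h0).1 h

end general

section clique

variable {N : ℕ}

theorem HasSpreadK.of_succ {V : Type*} [DecidableEq V] {k : ℕ} {G : Finset (Sym2 V)}
    (hG : HasK (k + 1) G) : HasSpreadK k G := by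
  intro h
  obtain ⟨S, hS, hc⟩ := hG
  obtain ⟨u, hu, hcu⟩ : ∃ u ∈ S, ∀ x ∈ S.erase u, ∀ y ∈ S.erase u, x ≠ y → s(x, y) ≠ h := by
    induction h with
    | _ a b =>
      by_cases ha : a ∈ S
      · refine ⟨a, ha, fun x hx y hy _ he => ?_⟩
        rcases Sym2.eq_iff.1 he with ⟨h1, -⟩ | ⟨-, h1⟩
        · exact ne_of_mem_erase hx h1
        · exact ne_of_mem_erase hy h1
      · obtain ⟨u, hu⟩ := card_pos.1 (by omega : 0 < S.card)
        refine ⟨u, hu, fun x hx y hy _ he => ?_⟩
        rcases Sym2.eq_iff.1 he with ⟨h1, -⟩ | ⟨-, h1⟩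
        · exact ha (h1 ▸ mem_of_mem_erase hx)
        · exact ha (h1 ▸ mem_of_mem_erase hy)
  refine ⟨S.erase u, by rw [card_erase_of_mem hu]; omega, fun x hx y hy hxy => ?_⟩
  exact mem_erase.2 ⟨hcu x hx y hy hxy, hc x (mem_of_mem_erase hx) y (mem_of_mem_erase hy) hxy⟩

theorem no_draw {p q : ℕ} (hR : Ramsey q p N) : ∀ X Y : Finset (Sym2 (Fin N)), X ⊆ full N →
    Y ⊆ full N → full N ⊆ X ∪ Y → HasK p X ∨ HasK q Y := by
  intro X Y _ hY h
  rcases hR Y hY with h1 | h1
  · exact Or.inr h1
  · refine Or.inl (h1.mono_right fun e he => ?_)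
    rw [mem_sdiff] at he
    rcases mem_union.1 (h he.1) with h2 | h2
    · exact h2
    · exact absurd h2 he.2

theorem main_one_pass {p : ℕ} (hp : 2 ≤ p) (hR : Ramsey p p N) :
    SecondWins (full N) (HasK p) (HasK p) 1 ∧ FirstWins (full N) (HasK p) (HasK p) 1 :=
  one_pass (fun _ _ h => HasK.mono_right h) (not_hasK_empty hp) (no_draw hR)

theorem main_spread {p : ℕ} (hp : 2 ≤ p) (hR : Ramsey p (p + 1) N) :
    SecondWins (full N) (HasK p) (HasSpreadK p) 0 ∧
      FirstWins (full N) (HasSpreadK p) (HasK p) 0 := by
  have hnd : ∀ X Y : Finset (Sym2 (Fin N)), X ⊆ full N → Y ⊆ full N → full N ⊆ X ∪ Y →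
      HasSpreadK p X ∨ HasK p Y := fun X Y hX hY h =>
    (no_draw hR X Y hX hY h).imp_left HasSpreadK.of_succ
  refine one_edge (bad := HasK p) (badP := HasSpreadK p) (fun _ _ h => HasK.mono_right h)
    (not_hasK_empty hp) ?_ ?_ ?_ hnd
  · intro X Y hX hY h
    exact (no_draw hR X Y hX hY h).imp_left (HasK.mono_left (Nat.le_succ p))
  · intro X X' h hX e
    exact (hX e).mono_right (erase_subset_erase e h)
  · intro X x hb h
    refine hb ((h x).mono_right fun e he => ?_)
    rw [mem_erase, mem_insert] at he
    exact he.2.resolve_left he.1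

theorem main_succ' {p : ℕ} (hp : 2 ≤ p) (hR : Ramsey p (p + 1) N) :
    SecondWins (full N) (HasK p) (HasK (p + 1)) 0 ∧
      FirstWins (full N) (HasK (p + 1)) (HasK p) 0 := by
  obtain ⟨h1, h2⟩ := main_spread hp hR
  exact ⟨(relax (fun _ h => HasSpreadK.of_succ h) _ ∅ ∅ le_rfl).2 h1,
    (relax (fun _ h => HasSpreadK.of_succ h) _ ∅ ∅ le_rfl).1 h2⟩

theorem HasKm.mono_right {V : Type*} {p : ℕ} {G G' : Finset (Sym2 V)} (h : G ⊆ G')
    (hG : HasKm p G) : HasKm p G' := by
  obtain ⟨S, hS, u, hu, v, hv, huv, hc⟩ := hG
  exact ⟨S, hS, u, hu, v, hv, huv, fun x hx y hy hxy hne => h (hc x hx y hy hxy hne)⟩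

theorem hasKm_erase {V : Type*} [DecidableEq V] {p : ℕ} (hp : 2 ≤ p) {G : Finset (Sym2 V)}
    (hG : HasK p G) (h : Sym2 V) : HasKm p (G.erase h) := by
  obtain ⟨S, hS, hc⟩ := hG
  by_cases hh : ∃ u ∈ S, ∃ v ∈ S, u ≠ v ∧ h = s(u, v)
  · obtain ⟨u, hu, v, hv, huv, rfl⟩ := hh
    exact ⟨S, hS, u, hu, v, hv, huv, fun x hx y hy hxy hne => mem_erase.2 ⟨hne, hc x hx y hy hxy⟩⟩
  · push Not at hh
    obtain ⟨u, hu, v, hv, huv⟩ := one_lt_card.1 (by omega : 1 < S.card)
    refine ⟨S, hS, u, hu, v, hv, huv, fun x hx y hy hxy _ => mem_erase.2 ⟨?_, hc x hx y hy hxy⟩⟩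
    exact fun h1 => hh x hx y hy hxy h1.symm

theorem main_minus' {p : ℕ} (hp : 3 ≤ p) (hR : Ramsey p p N) :
    SecondWins (full N) (HasKm p) (HasK p) 0 ∧ FirstWins (full N) (HasK p) (HasKm p) 0 := by
  have hnd := no_draw hR
  have hp2 : 2 ≤ p := by omega
  obtain ⟨h1, h2⟩ := one_edge (B := full N) (bad := HasKm p)
    (badP := fun X => ∀ h : Sym2 (Fin N), HasKm p (X.erase h)) (fun _ _ h => HasKm.mono_right h)
    (not_hasKm_empty hp)
    (fun X Y hX hY h => (hnd X Y hX hY h).imp (HasK.toKm hp2) (HasK.toKm hp2))
    (fun X X' h hX e => (hX e).mono_right (erase_subset_erase e h))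
    (by
      intro X x hb h
      refine hb ((h x).mono_right fun e he => ?_)
      rw [mem_erase, mem_insert] at he
      exact he.2.resolve_left he.1)
    (fun X Y hX hY h => (hnd X Y hX hY h).imp (hasKm_erase hp2) (HasK.toKm hp2))
  exact ⟨(relax (fun _ h => hasKm_erase hp2 h) _ ∅ ∅ le_rfl).2 h1,
    (relax (fun _ h => hasKm_erase hp2 h) _ ∅ ∅ le_rfl).1 h2⟩

theorem hasK_image {V V' : Type*} [DecidableEq V] [DecidableEq V'] {p : ℕ} {f : V → V'}
    (hf : Function.Injective f) (X : Finset (Sym2 V)) (hp : 2 ≤ p) :
    HasK p (X.image (Sym2.map f)) ↔ HasK p X := by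
  constructor
  · rintro ⟨S, hS, hc⟩
    have himg : ∀ x ∈ S, ∃ a, f a = x := by
      intro x hx
      obtain ⟨y, hy, hyx⟩ := exists_mem_ne (by omega : 1 < S.card) x
      obtain ⟨e, -, he⟩ := mem_image.1 (hc x hx y hy hyx.symm)
      induction e with
      | _ a b =>
        rw [Sym2.map_mk, Sym2.eq_iff] at he
        rcases he with ⟨h1, -⟩ | ⟨-, h1⟩
        · exact ⟨a, h1⟩
        · exact ⟨b, h1⟩
    refine ⟨S.preimage f hf.injOn, ?_, ?_⟩
    · rw [← hS, ← card_image_of_injective _ hf]
      congr 1
      ext x
      rw [mem_image]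
      constructor
      · rintro ⟨a, ha, rfl⟩
        exact mem_preimage.1 ha
      · intro hx
        obtain ⟨a, rfl⟩ := himg x hx
        exact ⟨a, mem_preimage.2 hx, rfl⟩
    · intro a ha b hb hab
      obtain ⟨e, he, he2⟩ := mem_image.1 (hc (f a) (mem_preimage.1 ha) (f b) (mem_preimage.1 hb)
        fun h => hab (hf h))
      have : e = s(a, b) := Sym2.map.injective hf (by rw [he2, Sym2.map_mk])
      rwa [this] at he
  · rintro ⟨S, hS, hc⟩
    refine ⟨S.image f, by rw [card_image_of_injective _ hf, hS], ?_⟩
    intro x hx y hy hxy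
    obtain ⟨a, ha, rfl⟩ := mem_image.1 hx
    obtain ⟨b, hb, rfl⟩ := mem_image.1 hy
    exact mem_image.2 ⟨s(a, b), hc a ha b hb fun h => hxy (by rw [h]), rfl⟩

/-- If First wins on `K_N`, then Second wins on `K_N` minus an edge, whichever edge. -/
theorem main_delete' {p : ℕ} (hp : 3 ≤ p) (h : FirstWins (full N) (HasK p) (HasK p) 0) :
    ∀ e ∈ full N, SecondWins ((full N).erase e) (HasK p) (HasK p) 0 := by
  obtain ⟨e, he, h⟩ : ∃ e ∈ full N, SecondWins ((full N).erase e) (HasK p) (HasK p) 0 := by
    cases h with
    | lost h => exact absurd h (not_hasK_empty (by omega))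
    | move e he _ _ hb h =>
      refine ⟨e, he, ?_⟩
      have := delete_own (B := full N) (fun X X' h => HasK.mono_right h) _ 0 _ _ le_rfl
        (mem_insert_self e ∅) (by simp) h
      rw [erase_insert (by simp)] at this
      exact this
  intro f hf
  have hef : ∃ π : Fin N ≃ Fin N, Sym2.map π e = f := by
    induction e with
    | _ a b =>
      induction f with
      | _ c d =>
        rw [mem_full, Sym2.mk_isDiag_iff] at he hf
        refine ⟨(Equiv.swap a c).trans (Equiv.swap (Equiv.swap a c b) d), ?_⟩
        have h1 : Equiv.swap a c b ≠ c := by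
          intro h2
          have h3 := Equiv.swap_apply_left a c
          exact he ((Equiv.swap a c).injective (h3.trans h2.symm))
        rw [Sym2.map_mk]
        simp only [Equiv.trans_apply, Equiv.swap_apply_left]
        rw [Equiv.swap_apply_of_ne_of_ne (Ne.symm h1) hf]
  obtain ⟨π, hπ⟩ := hef
  have hinj : Function.Injective (Sym2.map π : Sym2 (Fin N) → Sym2 (Fin N)) :=
    Sym2.map.injective π.injective
  have h1 := (transport (B := (full N).erase e) (bP := HasK p) (bQ := HasK p) (bP' := HasK p)
    (bQ' := HasK p) hinj (fun X => hasK_image π.injective X (by omega))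
    (fun X => hasK_image π.injective X (by omega)) _ ∅ ∅ le_rfl).2 h
  have h2 : ((full N).erase e).image (Sym2.map π) = (full N).erase f := by
    ext g
    rw [mem_image, mem_erase]
    constructor
    · rintro ⟨g', hg', rfl⟩
      rw [mem_erase, mem_full] at hg'
      refine ⟨fun h3 => hg'.1 (hinj (h3.trans hπ.symm)), ?_⟩
      rw [mem_full]
      intro h3
      apply hg'.2
      revert h3
      generalize g' = g₀
      induction g₀ with
      | _ a b => simp
    · rintro ⟨h3, h4⟩
      refine ⟨Sym2.map π.symm g, ?_, ?_⟩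
      · rw [mem_erase, mem_full]
        constructor
        · rintro rfl
          apply h3
          rw [← hπ]
          induction g with
          | _ a b => simp
        · rw [mem_full] at h4
          intro h5
          apply h4
          revert h5
          generalize g = g₀
          induction g₀ with
          | _ a b => simp
      · induction g with
        | _ a b => simp
  rw [h2] at h1
  exact h1

/-- If Second wins on `K_N`, then First wins on `K_N` with a pendant edge. -/
theorem main_pendant {p : ℕ} (hp : 3 ≤ p) (h : SecondWins (full N) (HasK p) (HasK p) 0) :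
    FirstWins (pendant N) (HasK p) (HasK p) 0 := by
  have hinj := Fin.castSucc_injective N
  have hlast : ∀ X : Finset (Sym2 (Fin N)), ∀ v, s(v, Fin.last N) ∉ X.image (Sym2.map Fin.castSucc) := by
    intro X v hv
    obtain ⟨e, -, he⟩ := mem_image.1 hv
    induction e with
    | _ a b =>
      rw [Sym2.map_mk, Sym2.eq_iff] at he
      rcases he with ⟨-, h1⟩ | ⟨h1, -⟩
      · exact Fin.castSucc_ne_last b h1
      · exact Fin.castSucc_ne_last a h1
  have h1 := (transport (B := full N) (bP := HasK p) (bQ := HasK p) (bP' := HasK p)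
    (bQ' := HasK p) (Sym2.map.injective hinj) (fun X => hasK_image hinj X (by omega))
    (fun X => hasK_image hinj X (by omega)) _ ∅ ∅ le_rfl).2 h
  have ht : ∀ X ⊆ (full N).image (Sym2.map Fin.castSucc), HasK p (insert s(0, Fin.last N) X) →
      HasK p X := by
    rintro X hX ⟨S, hS, hc⟩
    have hXl : ∀ v, s(v, Fin.last N) ∉ X := fun v hv => hlast (full N) v (hX hv)
    have hS1 : Fin.last N ∉ S := by
      intro hl
      obtain ⟨a, ha, b, hb, hab⟩ := one_lt_card.1
        (by rw [card_erase_of_mem hl]; omega : 1 < (S.erase (Fin.last N)).card)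
      have key : ∀ v ∈ S.erase (Fin.last N), v = 0 := by
        intro v hv
        rw [mem_erase] at hv
        rcases mem_insert.1 (hc v hv.2 _ hl hv.1) with h2 | h2
        · rcases Sym2.eq_iff.1 h2 with ⟨h3, -⟩ | ⟨h3, -⟩
          · exact h3
          · exact absurd h3 hv.1
        · exact absurd h2 (hXl v)
      exact hab ((key a ha).trans (key b hb).symm)
    refine ⟨S, hS, fun x hx y hy hxy => ?_⟩
    rcases mem_insert.1 (hc x hx y hy hxy) with h2 | h2
    · exfalso
      rcases Sym2.eq_iff.1 h2 with ⟨-, h3⟩ | ⟨h3, -⟩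
      · exact hS1 (h3 ▸ hy)
      · exact hS1 (h3 ▸ hx)
    · exact h2
  have h2 := (add_token (bad := HasK p) (hlast (full N) 0) ht _ ∅ ∅ le_rfl (empty_subset _)).2
    (by simpa using h1)
  refine WinsP.move s(0, Fin.last N) (mem_insert_self _ _) (by simp) (by simp) ?_ h2
  exact fun h3 => not_hasK_empty (by omega) (ht ∅ (empty_subset _) h3)

theorem main_determined {p : ℕ} (hp : 2 ≤ p) (hR : Ramsey p p N) :
    FirstWins (full N) (HasK p) (HasK p) 0 ∨ SecondWins (full N) (HasK p) (HasK p) 0 :=
  (determined (B := full N) _ (HasK p) (HasK p) (no_draw hR) ∅ ∅ le_rfl (empty_subset _)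
    (empty_subset _) (not_hasK_empty hp) (not_hasK_empty hp)).symm

end clique

end RCG
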