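import Pool.Agent.Work.MP_1ad43c_co.Pairing

/-!
# A set of four vertices with many good extensions
-/

namespace RCG

namespace Pairing

open Finset

section sums

variable {V : Type*} (U : Finset V)

/-- sums over quadruples -/
def S4 (f : V → V → V → V → ℕ) : ℕ := ∑ a ∈ U, ∑ b ∈ U, ∑ c ∈ U, ∑ d ∈ U, f a b c d

theorem S4_add (f g : V → V → V → V → ℕ) :
    S4 U (fun a b c d => f a b c d + g a b c d) = S4 U f + S4 U g := by
  simp only [S4, sum_add_distrib]

theorem S4_mul (k : ℕ) (f : V → V → V → V → ℕ) :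
    S4 U (fun a b c d => k * f a b c d) = k * S4 U f := by
  simp only [S4, mul_sum]

theorem S4_swap12 (f : V → V → V → V → ℕ) : S4 U (fun a b c d => f b a c d) = S4 U f := by
  unfold S4
  rw [sum_comm]

theorem S4_swap23 (f : V → V → V → V → ℕ) : S4 U (fun a b c d => f a c b d) = S4 U f := by
  unfold S4
  refine sum_congr rfl fun a _ => ?_
  rw [sum_comm]

theorem S4_swap34 (f : V → V → V → V → ℕ) : S4 U (fun a b c d => f a b d c) = S4 U f := by
  unfold S4
  refine sum_congr rfl fun a _ => sum_congr rfl fun b _ => ?_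
  rw [sum_comm]

theorem S4_two (g : V → V → ℕ) :
    S4 U (fun a b _ _ => g a b) = #U ^ 2 * ∑ a ∈ U, ∑ b ∈ U, g a b := by
  simp only [S4, sum_const, smul_eq_mul, mul_sum]
  refine sum_congr rfl fun a _ => sum_congr rfl fun b _ => ?_
  ring

theorem S4_three (h : V → V → V → ℕ) :
    S4 U (fun a b c _ => h a b c) = #U * ∑ a ∈ U, ∑ b ∈ U, ∑ c ∈ U, h a b c := by
  simp only [S4, sum_const, smul_eq_mul, mul_sum]

/-- the six pairs -/
theorem S4_pairs (g : V → V → ℕ) :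
    S4 U (fun a b c d => g a b + g a c + g a d + g b c + g b d + g c d) =
      6 * (#U ^ 2 * ∑ a ∈ U, ∑ b ∈ U, g a b) := by
  have h12 := S4_two U g
  have h13 : S4 U (fun a _ c _ => g a c) = S4 U (fun a b _ _ => g a b) :=
    S4_swap23 U fun a b _ _ => g a b
  have h14 : S4 U (fun a _ _ d => g a d) = S4 U (fun a _ c _ => g a c) :=
    S4_swap34 U fun a _ c _ => g a c
  have h23 : S4 U (fun _ b c _ => g b c) = S4 U (fun a _ c _ => g a c) :=
    S4_swap12 U fun a _ c _ => g a c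
  have h24 : S4 U (fun _ b _ d => g b d) = S4 U (fun _ b c _ => g b c) :=
    S4_swap34 U fun _ b c _ => g b c
  have h34 : S4 U (fun _ _ c d => g c d) = S4 U (fun _ b _ d => g b d) :=
    S4_swap23 U fun _ b _ d => g b d
  simp only [S4_add]
  rw [h34, h24, h23, h14, h13, h12]
  ring

/-- the four triples -/
theorem S4_triples (h : V → V → V → ℕ) :
    S4 U (fun a b c d => h a b c + h a b d + h a c d + h b c d) =
      4 * (#U * ∑ a ∈ U, ∑ b ∈ U, ∑ c ∈ U, h a b c) := by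
  have h123 := S4_three U h
  have h124 : S4 U (fun a b _ d => h a b d) = S4 U (fun a b c _ => h a b c) :=
    S4_swap34 U fun a b c _ => h a b c
  have h134 : S4 U (fun a _ c d => h a c d) = S4 U (fun a b _ d => h a b d) :=
    S4_swap23 U fun a b _ d => h a b d
  have h234 : S4 U (fun _ b c d => h b c d) = S4 U (fun a _ c d => h a c d) :=
    S4_swap12 U fun a _ c d => h a c d
  simp only [S4_add]
  rw [h234, h134, h124, h123]
  ring

end sums

section count

variable {V : Type*} [DecidableEq V] (p : Sym2 V → Sym2 V) (U : Finset V)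

/-- `p(tx) = ty` -/
def vv (t x y : V) : ℕ := if t ≠ x ∧ x ≠ y ∧ t ≠ y ∧ p s(t, x) = s(t, y) then 1 else 0

/-- `p(tx)` contains `t` but not `x` -/
def ii (t x : V) : ℕ := if t ≠ x ∧ t ∈ p s(t, x) ∧ x ∉ p s(t, x) then 1 else 0

theorem sum_vv_le (t x : V) : ∑ y ∈ U, vv p t x y ≤ ii p t x := by
  by_cases h : ∃ y ∈ U, vv p t x y ≠ 0
  · obtain ⟨y, hy, hy0⟩ := h
    have hv : t ≠ x ∧ x ≠ y ∧ t ≠ y ∧ p s(t, x) = s(t, y) := by
      by_contra hcon
      exact hy0 (if_neg hcon)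
    have h1 : ∑ z ∈ U, vv p t x z = vv p t x y := by
      apply sum_eq_single y
      · intro z hz hzy
        apply if_neg
        rintro ⟨-, -, -, h4⟩
        rw [hv.2.2.2, Sym2.eq_iff] at h4
        rcases h4 with ⟨-, h4⟩ | ⟨h4, h5⟩
        · exact hzy h4.symm
        · exact hv.2.2.1 h5.symm
      · exact fun h => absurd hy h
    rw [h1, vv, if_pos hv, ii, if_pos]
    refine ⟨hv.1, ?_, ?_⟩
    · rw [hv.2.2.2]
      exact Sym2.mem_mk_left t y
    · rw [hv.2.2.2, Sym2.mem_iff]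
      rintro (h | h)
      · exact hv.1 h.symm
      · exact hv.2.1 h
  · push Not at h
    rw [sum_eq_zero h]
    exact Nat.zero_le _

theorem ii_add (t x : V) : ii p t x + ii p x t ≤ 1 := by
  unfold ii
  rw [Sym2.eq_swap (a := x) (b := t)]
  split_ifs with h1 h2
  · exact absurd h2.2.1 h1.2.2
  · exact le_rfl
  · exact le_rfl
  · exact Nat.zero_le _

theorem two_S3 : 2 * ∑ t ∈ U, ∑ x ∈ U, ∑ y ∈ U, vv p t x y ≤ #U ^ 2 := by
  have h1 : ∑ t ∈ U, ∑ x ∈ U, ∑ y ∈ U, vv p t x y ≤ ∑ t ∈ U, ∑ x ∈ U, ii p t x :=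
    sum_le_sum fun t _ => sum_le_sum fun x _ => sum_vv_le p U t x
  have h2 : ∑ t ∈ U, ∑ x ∈ U, ii p t x = ∑ t ∈ U, ∑ x ∈ U, ii p x t := sum_comm
  have h3 : ∑ t ∈ U, ∑ x ∈ U, ii p t x + ∑ t ∈ U, ∑ x ∈ U, ii p x t ≤ #U ^ 2 := by
    rw [← sum_add_distrib]
    calc ∑ t ∈ U, (∑ x ∈ U, ii p t x + ∑ x ∈ U, ii p x t) ≤ ∑ t ∈ U, ∑ x ∈ U, 1 := by
          refine sum_le_sum fun t _ => ?_
          rw [← sum_add_distrib]
          exact sum_le_sum fun x _ => ii_add p t x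
      _ = #U ^ 2 := by
          simp [sq]
  omega

/-- the adjacent couples in a triple -/
def TT (a b c : V) : ℕ := vv p a b c + vv p a c b + vv p b a c + vv p b c a + vv p c a b + vv p c b a

theorem sum_TT : ∑ a ∈ U, ∑ b ∈ U, ∑ c ∈ U, TT p a b c ≤ 3 * #U ^ 2 := by
  have h := two_S3 p U
  have e1 : ∑ a ∈ U, ∑ b ∈ U, ∑ c ∈ U, vv p a c b = ∑ a ∈ U, ∑ b ∈ U, ∑ c ∈ U, vv p a b c :=
    sum_congr rfl fun a _ => sum_comm
  have e2 : ∑ a ∈ U, ∑ b ∈ U, ∑ c ∈ U, vv p b a c = ∑ a ∈ U, ∑ b ∈ U, ∑ c ∈ U, vv p a b c :=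
    sum_comm
  have e3 : ∑ a ∈ U, ∑ b ∈ U, ∑ c ∈ U, vv p b c a = ∑ a ∈ U, ∑ b ∈ U, ∑ c ∈ U, vv p a c b :=
    sum_comm
  have e4 : ∑ a ∈ U, ∑ b ∈ U, ∑ c ∈ U, vv p c a b = ∑ a ∈ U, ∑ b ∈ U, ∑ c ∈ U, vv p b a c :=
    sum_congr rfl fun a _ => sum_comm
  have e5 : ∑ a ∈ U, ∑ b ∈ U, ∑ c ∈ U, vv p c b a = ∑ a ∈ U, ∑ b ∈ U, ∑ c ∈ U, vv p b c a :=
    sum_congr rfl fun a _ => sum_comm
  unfold TT
  simp only [sum_add_distrib]
  rw [e5, e4, e3, e2, e1]
  omega

/-- `p(ab) = cd` -/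
def dd (a b c d : V) : ℕ := if p s(a, b) = s(c, d) then 1 else 0

theorem sum_dd_le (e : Sym2 V) : ∑ c ∈ U, ∑ d ∈ U, (if e = s(c, d) then 1 else 0) ≤ 2 := by
  induction e with
  | _ x y =>
    have h1 : ∀ c ∈ U, ∑ d ∈ U, (if s(x, y) = s(c, d) then 1 else 0) ≤
        (if c = x then 1 else 0) + (if c = y then 1 else 0) := by
      intro c _
      calc ∑ d ∈ U, (if s(x, y) = s(c, d) then 1 else 0)
          ≤ ∑ d ∈ U, ((if d = y then (if c = x then 1 else 0) else 0) +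
            (if d = x then (if c = y then 1 else 0) else 0)) := by
            refine sum_le_sum fun d _ => ?_
            by_cases h : s(x, y) = s(c, d)
            · rw [if_pos h]
              rcases Sym2.eq_iff.1 h with ⟨rfl, rfl⟩ | ⟨rfl, rfl⟩
              · simp
              · simp
            · rw [if_neg h]
              exact Nat.zero_le _
        _ ≤ _ := by
            rw [sum_add_distrib]
            refine Nat.add_le_add ?_ ?_
            · rw [sum_ite_eq']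
              split_ifs <;> simp
            · rw [sum_ite_eq']
              split_ifs <;> simp
    refine (sum_le_sum h1).trans ?_
    rw [sum_add_distrib, sum_ite_eq', sum_ite_eq']
    split_ifs <;> simp

theorem S4_dd : S4 U (dd p) ≤ 2 * #U ^ 2 := by
  unfold S4
  calc ∑ a ∈ U, ∑ b ∈ U, ∑ c ∈ U, ∑ d ∈ U, dd p a b c d ≤ ∑ a ∈ U, ∑ b ∈ U, 2 :=
        sum_le_sum fun a _ => sum_le_sum fun b _ => sum_dd_le U (p s(a, b))
    _ = 2 * #U ^ 2 := by
        simp
        ring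

/-- the couples of disjoint edges in a quadruple -/
def DD (a b c d : V) : ℕ :=
  dd p a b c d + dd p c d a b + dd p a c b d + dd p b d a c + dd p a d b c + dd p b c a d

theorem S4_DD : S4 U (DD p) ≤ 12 * #U ^ 2 := by
  have h := S4_dd p U
  have e1 : S4 U (fun a b c d => dd p a c b d) = S4 U (dd p) := S4_swap23 U (dd p)
  have e2 : S4 U (fun a b c d => dd p a d b c) = S4 U (fun a b c d => dd p a c b d) :=
    S4_swap34 U fun a b c d => dd p a c b d
  have e3 : S4 U (fun a b c d => dd p b c a d) = S4 U (fun a b c d => dd p a c b d) :=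
    S4_swap12 U fun a b c d => dd p a c b d
  have e4 : S4 U (fun a b c d => dd p b d a c) = S4 U (fun a b c d => dd p b c a d) :=
    S4_swap34 U fun a b c d => dd p b c a d
  have e5 : S4 U (fun a b c d => dd p c d a b) = S4 U (fun a b c d => dd p b d a c) :=
    S4_swap23 U fun a b c d => dd p b d a c
  have e0 : S4 U (DD p) = S4 U (fun a b c d => dd p a b c d) + S4 U (fun a b c d => dd p c d a b) +
      S4 U (fun a b c d => dd p a c b d) + S4 U (fun a b c d => dd p b d a c) +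
      S4 U (fun a b c d => dd p a d b c) + S4 U (fun a b c d => dd p b c a d) := by
    unfold DD
    simp only [S4_add]
  rw [e0, e5, e4, e3, e2, e1]
  change S4 U (dd p) + _ + _ + _ + _ + _ ≤ _
  omega

/-- the number of `t` with `p(tx) = ty` -/
def cc2 (x y : V) : ℕ := ∑ t ∈ U, vv p t x y

theorem sum_cc2 : 2 * ∑ x ∈ U, ∑ y ∈ U, cc2 p U x y ≤ #U ^ 2 := by
  have h := two_S3 p U
  have e1 : ∑ x ∈ U, ∑ y ∈ U, cc2 p U x y = ∑ t ∈ U, ∑ x ∈ U, ∑ y ∈ U, vv p t x y := by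
    unfold cc2
    have e2 : ∑ x ∈ U, ∑ y ∈ U, ∑ t ∈ U, vv p t x y = ∑ x ∈ U, ∑ t ∈ U, ∑ y ∈ U, vv p t x y :=
      sum_congr rfl fun x _ => sum_comm
    rw [e2]
    exact sum_comm
  rw [e1]
  exact h

/-- equality -/
def qq (x y : V) : ℕ := if x = y then 1 else 0

omit [DecidableEq V] in
theorem sum_qq [DecidableEq V] : ∑ x ∈ U, ∑ y ∈ U, qq x y = #U := by
  unfold qq
  have h : ∀ x ∈ U, ∑ y ∈ U, (if x = y then 1 else 0) = 1 := by
    intro x hx
    rw [sum_ite_eq, if_pos hx]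
  rw [sum_congr rfl h]
  simp

/-- the cost of a quadruple -/
def cost (a b c d : V) : ℕ :=
  (cc2 p U a b + cc2 p U a c + cc2 p U a d + cc2 p U b c + cc2 p U b d + cc2 p U c d) +
    7 * (qq a b + qq a c + qq a d + qq b c + qq b d + qq c d) +
    7 * (TT p a b c + TT p a b d + TT p a c d + TT p b c d) + 7 * DD p a b c d

theorem S4_cost (hn : 33 ≤ #U) : S4 U (cost p U) < 7 * #U ^ 4 := by
  have h1 := S4_pairs U (cc2 p U)
  have h2 := S4_pairs U (qq (V := V))
  have h3 := S4_triples U (TT p)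
  have h4 := S4_DD p U
  have h5 := sum_cc2 p U
  have h6 := sum_qq (V := V) U
  have h7 := sum_TT p U
  have e0 : S4 U (cost p U) =
      S4 U (fun a b c d => cc2 p U a b + cc2 p U a c + cc2 p U a d + cc2 p U b c + cc2 p U b d +
        cc2 p U c d) + 7 * S4 U (fun a b c d => qq a b + qq a c + qq a d + qq b c + qq b d +
        qq c d) + 7 * S4 U (fun a b c d => TT p a b c + TT p a b d + TT p a c d + TT p b c d) +
        7 * S4 U (DD p) := by
    rw [← S4_mul, ← S4_mul, ← S4_mul, ← S4_add, ← S4_add, ← S4_add]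
    rfl
  rw [e0, h1, h2, h3, h6]
  set A := ∑ a ∈ U, ∑ b ∈ U, cc2 p U a b with hA
  set B := ∑ a ∈ U, ∑ b ∈ U, ∑ c ∈ U, TT p a b c with hB
  set n := #U with hn'
  have h8 : 6 * (n ^ 2 * A) ≤ 3 * n ^ 4 := by
    have := Nat.mul_le_mul_left (3 * n ^ 2) h5
    nlinarith
  have h9 : 7 * (4 * (n * B)) ≤ 84 * n ^ 3 := by
    have := Nat.mul_le_mul_left (28 * n) h7
    nlinarith
  have h10 : 7 * (6 * (n ^ 2 * n)) = 42 * n ^ 3 := by ring
  have h11 : 7 * S4 U (DD p) ≤ 84 * n ^ 2 := by omega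
  have h12 : 3 * n ^ 4 + 42 * n ^ 3 + 84 * n ^ 3 + 84 * n ^ 2 < 7 * n ^ 4 := by
    have h13 : 126 * n ^ 3 + 84 * n ^ 2 < 4 * n ^ 4 := by
      have h14 : 0 < n ^ 2 := by positivity
      have h15 : 126 * n + 84 < 4 * n ^ 2 := by nlinarith
      calc 126 * n ^ 3 + 84 * n ^ 2 = n ^ 2 * (126 * n + 84) := by ring
        _ < n ^ 2 * (4 * n ^ 2) := Nat.mul_lt_mul_of_pos_left h15 h14
        _ = 4 * n ^ 4 := by ring
    omega
  omega

theorem exists_quad (hn : 33 ≤ #U) : ∃ a ∈ U, ∃ b ∈ U, ∃ c ∈ U, ∃ d ∈ U, cost p U a b c d < 7 := by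
  by_contra hcon
  push Not at hcon
  have h := S4_cost p U hn
  have h1 : 7 * #U ^ 4 ≤ S4 U (cost p U) := by
    unfold S4
    calc 7 * #U ^ 4 = ∑ a ∈ U, ∑ b ∈ U, ∑ c ∈ U, ∑ d ∈ U, 7 := by
          simp
          ring
      _ ≤ _ := sum_le_sum fun a ha => sum_le_sum fun b hb => sum_le_sum fun c hc =>
          sum_le_sum fun d hd => hcon a ha b hb c hc d hd
  omega

end count

end Pairing

end RCG
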