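import Pool.Agent.Work.MP_1ad43c_co.Defs

/-!
# Strategies and pairings in the reverse clique game (definitions)
-/

namespace RCG

namespace Pairing

variable {N : ℕ}

/-- A strategy: the answer to the sequence of the moves which the opponent has made so far. -/
abbrev Rule (N : ℕ) := List (Sym2 (Fin N)) → Sym2 (Fin N)

/-- the sequence of the answers to the moves `l` of the opponent -/
def answers (σ : Rule N) (l : List (Sym2 (Fin N))) : List (Sym2 (Fin N)) :=
  (List.range l.length).map fun i => σ (l.take (i + 1))

/-- `p` is an involution of the set of the edges of `K_N`: every edge `e` with `p e ≠ e` is paired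
with `p e`, the edges with `p e = e` are unpaired. -/
def IsPairingOf (N : ℕ) (p : Sym2 (Fin N) → Sym2 (Fin N)) : Prop :=
  ∀ e ∈ full N, p e ∈ full N ∧ p (p e) = e

/-- `σ` is a pairing strategy for the pairing `p`: if the last move of the opponent was a paired
edge, then the answer is its partner. -/
def Follows (σ : Rule N) (p : Sym2 (Fin N) → Sym2 (Fin N)) : Prop :=
  ∀ l, ∀ e ∈ full N, p e ≠ e → σ (l ++ [e]) = p e

/-- First claims the edges of `l`, one after the other, Second answers by `σ`.  All these edges are
different edges of `K_N`; in the end Second owns a `K_5` and First does not: Second has lost. -/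
def SecondLoses (σ : Rule N) (l : List (Sym2 (Fin N))) : Prop :=
  (l ++ answers σ l).Nodup ∧ (∀ e ∈ l ++ answers σ l, e ∈ full N) ∧
    HasK 5 (answers σ l).toFinset ∧ ¬ HasK 5 l.toFinset

/-- First claims `e₀`, then Second claims the edges of `l`, one after the other, and First answers
by `σ`.  All these edges are different edges of `K_N`; in the end First owns a `K_5` and Second does
not: First has lost. -/
def FirstLoses (e₀ : Sym2 (Fin N)) (σ : Rule N) (l : List (Sym2 (Fin N))) : Prop :=
  (e₀ :: (l ++ answers σ l)).Nodup ∧ (∀ e ∈ e₀ :: (l ++ answers σ l), e ∈ full N) ∧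
    HasK 5 (e₀ :: answers σ l).toFinset ∧ ¬ HasK 5 l.toFinset

end Pairing

end RCG
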