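import Pool.Agent.Work.MP_1ad43c_co.PairMain
import Pool.Agent.Work.MP_1ad43c_co.PairDefs

/-!
# Pairing strategies in the reverse clique game
-/

namespace RCG

namespace Pairing

open Finset

variable {N : ℕ}

theorem mem_full {e : Sym2 (Fin N)} : e ∈ full N ↔ ¬ e.IsDiag := by
  simp [full]

/-- the end points of at most two edges -/
theorem exists_ends {F : Finset (Sym2 (Fin N))} (hF : #F ≤ 2) :
    ∃ D : Finset (Fin N), #D ≤ 4 ∧ ∀ e ∈ F, ∃ v ∈ D, v ∈ e := by
  have h : ∃ D : Finset (Fin N), #D ≤ #F ∧ ∀ e ∈ F, ∃ v ∈ D, v ∈ e := by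
    clear hF
    induction F using Finset.induction_on with
    | empty => exact ⟨∅, le_rfl, fun e he => absurd he (notMem_empty e)⟩
    | insert e F heF ih =>
      obtain ⟨D, hD, h⟩ := ih
      obtain ⟨v, hv⟩ : ∃ v, v ∈ e := by
        induction e with
        | _ x y => exact ⟨x, Sym2.mem_mk_left x y⟩
      refine ⟨insert v D, ?_, ?_⟩
      · rw [card_insert_of_notMem heF]
        exact (card_insert_le v D).trans (by omega)
      · intro f hf
        rcases mem_insert.1 hf with rfl | hf
        · exact ⟨v, mem_insert_self v D, hv⟩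
        · obtain ⟨w, hw, hwf⟩ := h f hf
          exact ⟨w, mem_insert_of_mem hw, hwf⟩
  obtain ⟨D, hD, h⟩ := h
  exact ⟨D, by omega, h⟩

/-- the moves of the opponent -/
theorem exists_moves (hN : 49 ≤ N) {p : Sym2 (Fin N) → Sym2 (Fin N)} (hp : IsPairingOf N p)
    (hf : #{e ∈ full N | p e = e} ≤ 2) :
    ∃ l : List (Sym2 (Fin N)), l.length = 10 ∧ (∀ e ∈ l, e ∈ full N ∧ p e ≠ e) ∧
      (l ++ l.map p).Nodup ∧ HasK 5 (l.map p).toFinset ∧ ¬ HasK 5 l.toFinset := by
  classical
  have hp' : IsPairing p :=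
    ⟨fun e he => mem_full.1 (hp e (mem_full.2 he)).1, fun e he => (hp e (mem_full.2 he)).2⟩
  obtain ⟨D, hD, hDf⟩ := exists_ends hf
  obtain ⟨S, hS5, hgood, hbad⟩ := exists_bad (by simpa using hN) hp' hD fun e he hpe =>
    hDf e (mem_filter.2 ⟨mem_full.2 he, hpe⟩)
  have hinj : Set.InjOn p (E S) := fun e he f hf h =>
    hp'.inj (not_diag_of_mem_E he) (not_diag_of_mem_E hf) h
  refine ⟨((E S).toList.map p), ?_, ?_, ?_, ?_, ?_⟩
  · rw [List.length_map, length_toList, card_E, hS5]
    rfl
  · intro e he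
    obtain ⟨f, hf, rfl⟩ := List.mem_map.1 he
    rw [mem_toList] at hf
    have hfd := not_diag_of_mem_E hf
    refine ⟨mem_full.2 (hp'.nd f hfd), ?_⟩
    rw [hp'.inv f hfd]
    intro h
    exact hgood f hf (h ▸ hf)
  · have h1 : ((E S).toList.map p).map p = (E S).toList := by
      rw [List.map_map]
      conv_rhs => rw [← List.map_id (E S).toList]
      apply List.map_congr_left
      intro f hf
      rw [mem_toList] at hf
      exact hp'.inv f (not_diag_of_mem_E hf)
    rw [h1, List.nodup_append]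
    refine ⟨?_, nodup_toList _, ?_⟩
    · rw [List.nodup_map_iff_inj_on (nodup_toList _)]
      intro f hf g hg h
      rw [mem_toList] at hf hg
      exact hinj hf hg h
    · intro a ha b hb hab
      obtain ⟨f, hf, rfl⟩ := List.mem_map.1 ha
      rw [mem_toList] at hf hb
      exact hgood f hf (hab ▸ hb)
  · have h1 : ((E S).toList.map p).map p = (E S).toList := by
      rw [List.map_map]
      conv_rhs => rw [← List.map_id (E S).toList]
      apply List.map_congr_left
      intro f hf
      rw [mem_toList] at hf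
      exact hp'.inv f (not_diag_of_mem_E hf)
    rw [h1, toList_toFinset]
    exact ⟨S, hS5, fun x hx y hy hxy => mem_E.2 ⟨hx, hy, hxy⟩⟩
  · rintro ⟨T, hT5, hT⟩
    apply hbad
    refine ⟨T, hT5, ?_⟩
    have h1 : E T = (E S).image p := by
      apply eq_of_subset_of_card_le
      · intro e
        induction e with
        | _ x y =>
          rw [mem_E]
          rintro ⟨hx, hy, hxy⟩
          have := hT x hx y hy hxy
          rw [List.mem_toFinset, List.mem_map] at this
          obtain ⟨f, hf, h⟩ := this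
          exact mem_image.2 ⟨f, mem_toList.1 hf, h⟩
      · rw [card_image_of_injOn hinj, card_E, card_E, hS5, hT5]
    intro e he
    rw [h1]
    exact mem_image_of_mem p he

theorem answers_eq {σ : Rule N} {p : Sym2 (Fin N) → Sym2 (Fin N)} (hσ : Follows σ p) :
    ∀ l : List (Sym2 (Fin N)), (∀ e ∈ l, e ∈ full N ∧ p e ≠ e) → answers σ l = l.map p := by
  intro l hl
  unfold answers
  apply List.ext_getElem
  · simp
  · intro i h1 h2
    have hi : i < l.length := by simpa using h1
    rw [List.getElem_map, List.getElem_map, List.getElem_range]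
    have h3 : l.take (i + 1) = l.take i ++ [l[i]] := by
      rw [List.take_add_one, List.getElem?_eq_getElem hi]
      rfl
    rw [h3]
    exact hσ _ _ (hl _ (List.getElem_mem hi)).1 (hl _ (List.getElem_mem hi)).2

theorem second_loses (hN : 49 ≤ N) {p : Sym2 (Fin N) → Sym2 (Fin N)} (hp : IsPairingOf N p)
    (hf : #{e ∈ full N | p e = e} ≤ 1) {σ : Rule N} (hσ : Follows σ p) :
    ∃ l : List (Sym2 (Fin N)), l.length = 10 ∧ SecondLoses σ l := by
  obtain ⟨l, h1, h2, h3, h4, h5⟩ := exists_moves hN hp (hf.trans (by norm_num))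
  have ha := answers_eq hσ l h2
  refine ⟨l, h1, ?_, ?_, ?_, h5⟩
  · rw [ha]
    exact h3
  · rw [ha]
    intro e he
    rcases List.mem_append.1 he with h | h
    · exact (h2 e h).1
    · obtain ⟨f, hf, rfl⟩ := List.mem_map.1 h
      exact (hp f (h2 f hf).1).1
  · rw [ha]
    exact h4

theorem first_loses (hN : 49 ≤ N) {p : Sym2 (Fin N) → Sym2 (Fin N)} (hp : IsPairingOf N p)
    (hf : #{e ∈ full N | p e = e} ≤ 2) {e₀ : Sym2 (Fin N)} (he₀ : e₀ ∈ full N)
    (hpe₀ : p e₀ = e₀) {σ : Rule N} (hσ : Follows σ p) :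
    ∃ l : List (Sym2 (Fin N)), l.length = 10 ∧ FirstLoses e₀ σ l := by
  obtain ⟨l, h1, h2, h3, h4, h5⟩ := exists_moves hN hp hf
  have ha := answers_eq hσ l h2
  refine ⟨l, h1, ?_, ?_, ?_, h5⟩
  · rw [ha, List.nodup_cons]
    refine ⟨?_, h3⟩
    intro he
    rcases List.mem_append.1 he with h | h
    · exact (h2 _ h).2 hpe₀
    · obtain ⟨f, hf, h6⟩ := List.mem_map.1 h
      have h7 : f = e₀ := by rw [← (hp f (h2 f hf).1).2, h6, hpe₀]
      exact (h2 f hf).2 (by rw [h7, hpe₀])
  · rw [ha]
    intro e he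
    rcases List.mem_cons.1 he with rfl | he
    · exact he₀
    · rcases List.mem_append.1 he with h | h
      · exact (h2 e h).1
      · obtain ⟨f, hf, rfl⟩ := List.mem_map.1 h
        exact (hp f (h2 f hf).1).1
  · rw [ha]
    obtain ⟨T, hT, hT2⟩ := h4
    refine ⟨T, hT, fun x hx y hy hxy => ?_⟩
    rw [List.toFinset_cons]
    exact mem_insert_of_mem (hT2 x hx y hy hxy)

end Pairing

end RCG
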