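import Pool.Agent.Work.MP_1ad43c_co.PairCount

/-!
# No pairing of the edges of `K_N`, `N ≥ 49`, respects the cliques of order `5`
-/

namespace RCG

namespace Pairing

open Finset

section quad

variable {V : Type*} [DecidableEq V] {p : Sym2 V → Sym2 V}

theorem vv_zero {t x y : V} (h : vv p t x y = 0) (h1 : t ≠ x) (h2 : x ≠ y) (h3 : t ≠ y) :
    p s(t, x) ≠ s(t, y) := by
  intro h4
  rw [vv, if_pos ⟨h1, h2, h3, h4⟩] at h
  exact one_ne_zero h

theorem dd_zero {x y z w : V} (h : dd p x y z w = 0) : p s(x, y) ≠ s(z, w) := by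
  intro h4
  rw [dd, if_pos h4] at h
  exact one_ne_zero h

theorem dd_swap1 (x y z w : V) : dd p y x z w = dd p x y z w := by
  unfold dd
  rw [Sym2.eq_swap]

theorem dd_swap2 (x y z w : V) : dd p x y w z = dd p x y z w := by
  unfold dd
  rw [Sym2.eq_swap (a := w)]

theorem qq_zero {x y : V} (h : qq x y = 0) : x ≠ y := by
  intro h1
  rw [qq, if_pos h1] at h
  exact one_ne_zero h

/-- the unordered condition for a good set of four vertices -/
theorem good_of_quad {a b c d : V} (hT1 : TT p a b c = 0) (hT2 : TT p a b d = 0)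
    (hT3 : TT p a c d = 0) (hT4 : TT p b c d = 0) (hD : DD p a b c d = 0)
    {U : Finset V} (hfix : ∀ e ∈ E U, p e ≠ e) (hKU : ({a, b, c, d} : Finset V) ⊆ U) :
    Good p ({a, b, c, d} : Finset V) := by
  have hv : ∀ t ∈ ({a, b, c, d} : Finset V), ∀ x ∈ ({a, b, c, d} : Finset V),
      ∀ y ∈ ({a, b, c, d} : Finset V), t ≠ x → x ≠ y → t ≠ y → vv p t x y = 0 := by
    intro t ht x hx y hy h1 h2 h3
    simp only [mem_insert, mem_singleton] at ht hx hy
    simp only [TT, Nat.add_eq_zero_iff] at hT1 hT2 hT3 hT4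
    obtain ⟨⟨⟨⟨⟨r1, r2⟩, r3⟩, r4⟩, r5⟩, r6⟩ := hT1
    obtain ⟨⟨⟨⟨⟨s1, s2⟩, s3⟩, s4⟩, s5⟩, s6⟩ := hT2
    obtain ⟨⟨⟨⟨⟨u1, u2⟩, u3⟩, u4⟩, u5⟩, u6⟩ := hT3
    obtain ⟨⟨⟨⟨⟨w1, w2⟩, w3⟩, w4⟩, w5⟩, w6⟩ := hT4
    rcases ht with rfl | rfl | rfl | rfl <;> rcases hx with rfl | rfl | rfl | rfl <;>
      first
        | exact absurd rfl h1
        | (rcases hy with rfl | rfl | rfl | rfl <;>
            first
              | exact absurd rfl h2
              | exact absurd rfl h3
              | assumption)
  have hd : ∀ x ∈ ({a, b, c, d} : Finset V), ∀ y ∈ ({a, b, c, d} : Finset V),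
      ∀ z ∈ ({a, b, c, d} : Finset V), ∀ w ∈ ({a, b, c, d} : Finset V),
      x ≠ y → z ≠ w → x ≠ z → x ≠ w → y ≠ z → y ≠ w → dd p x y z w = 0 := by
    intro x hx y hy z hz w hw h1 h2 h3 h4 h5 h6
    simp only [mem_insert, mem_singleton] at hx hy hz hw
    simp only [DD, Nat.add_eq_zero_iff] at hD
    obtain ⟨⟨⟨⟨⟨r1, r2⟩, r3⟩, r4⟩, r5⟩, r6⟩ := hD
    rcases hx with rfl | rfl | rfl | rfl <;> rcases hy with rfl | rfl | rfl | rfl <;>
      first
        | exact absurd rfl h1
        | (rcases hz with rfl | rfl | rfl | rfl <;>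
            first
              | exact absurd rfl h3
              | exact absurd rfl h5
              | (rcases hw with rfl | rfl | rfl | rfl <;>
                  first
                    | exact absurd rfl h2
                    | exact absurd rfl h4
                    | exact absurd rfl h6
                    | assumption
                    | (rw [dd_swap1]; assumption)
                    | (rw [dd_swap2]; assumption)
                    | (rw [dd_swap1, dd_swap2]; assumption)))
  intro e he hpe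
  have hne := hfix e (E_mono hKU he)
  generalize hf : p e = f at hpe hne
  induction e with
  | _ x y =>
    induction f with
    | _ z w =>
      rw [mem_E] at he hpe
      obtain ⟨hx, hy, hxy⟩ := he
      obtain ⟨hz, hw, hzw⟩ := hpe
      by_cases c1 : x = z
      · subst c1
        by_cases c2 : y = w
        · subst c2
          exact hne rfl
        · exact vv_zero (hv x hx y hy w hw hxy c2 hzw) hxy c2 hzw hf
      · by_cases c2 : y = z
        · subst c2
          by_cases c3 : x = w
          · subst c3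
            exact hne Sym2.eq_swap
          · refine vv_zero (hv y hy x hx w hw hxy.symm c3 hzw) hxy.symm c3 hzw ?_
            rw [← hf, Sym2.eq_swap]
        · by_cases c3 : x = w
          · subst c3
            refine vv_zero (hv x hx y hy z hz hxy c2 c1) hxy c2 c1 ?_
            rw [hf, Sym2.eq_swap]
          · by_cases c4 : y = w
            · subst c4
              refine vv_zero (hv y hy x hx z hz hxy.symm c1 c2) hxy.symm c1 c2 ?_
              rw [Sym2.eq_swap, hf, Sym2.eq_swap]
            · exact dd_zero (hd x hx y hy z hz w hw hxy hzw c1 c3 c2 c4) hf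

theorem card_ne_zero_le {α : Type*} (s : Finset α) (g : α → ℕ) :
    #{t ∈ s | g t ≠ 0} ≤ ∑ t ∈ s, g t := by
  rw [card_filter]
  refine sum_le_sum fun t _ => ?_
  split_ifs with h
  · omega
  · exact Nat.zero_le _

open Classical in
/-- the number of bad extensions of `K` -/
theorem card_bad (hp : IsPairing p) {a b c d : V} {U K : Finset V} (hK : K = {a, b, c, d})
    (hfix : ∀ e ∈ E U, p e ≠ e) (hKU : K ⊆ U) (hgood : Good p K) (hK4 : #K = 4) :
    #{t ∈ U \ K | ¬ Good p (insert t K)} ≤
      6 + (cc2 p U a b + cc2 p U a c + cc2 p U a d + cc2 p U b c + cc2 p U b d + cc2 p U c d) := by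
  let B1 : Finset V := (E K).biUnion fun e => {t ∈ U \ K | t ∈ p e ∧ ∃ y ∈ K, y ∈ p e}
  let g : V → ℕ := fun t => vv p t a b + vv p t a c + vv p t a d + vv p t b c + vv p t b d +
    vv p t c d
  let B2 : Finset V := {t ∈ U | g t ≠ 0}
  have h1 : #B1 ≤ 6 := by
    have h2 : ∀ e ∈ E K, #{t ∈ U \ K | t ∈ p e ∧ ∃ y ∈ K, y ∈ p e} ≤ 1 := by
      intro e _
      rw [card_le_one]
      intro t ht t' ht'
      rw [mem_filter, mem_sdiff] at ht ht'
      obtain ⟨⟨_, htK⟩, h3, y, hy, h4⟩ := ht
      obtain ⟨⟨_, htK'⟩, h5, -⟩ := ht'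
      have h6 : t ≠ y := fun h => htK (h ▸ hy)
      have h7 : t' ≠ y := fun h => htK' (h ▸ hy)
      have h8 : p e = s(t, y) := (Sym2.mem_and_mem_iff h6).1 ⟨h3, h4⟩
      rw [h8, Sym2.mem_iff] at h5
      rcases h5 with h5 | h5
      · exact h5.symm
      · exact absurd h5 h7
    calc #B1 ≤ ∑ e ∈ E K, #{t ∈ U \ K | t ∈ p e ∧ ∃ y ∈ K, y ∈ p e} := card_biUnion_le
      _ ≤ ∑ e ∈ E K, 1 := sum_le_sum h2
      _ = 6 := by
          rw [sum_const, card_E, hK4]
          rfl
  have h2 : #B2 ≤ cc2 p U a b + cc2 p U a c + cc2 p U a d + cc2 p U b c + cc2 p U b d +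
      cc2 p U c d := by
    refine (card_ne_zero_le U g).trans ?_
    simp only [g, cc2, sum_add_distrib]
    exact le_rfl
  have h3 : {t ∈ U \ K | ¬ Good p (insert t K)} ⊆ B1 ∪ B2 := by
    intro t ht
    rw [mem_filter] at ht
    obtain ⟨htUK, hbad⟩ := ht
    obtain ⟨htU, htK⟩ := mem_sdiff.1 htUK
    unfold Good at hbad
    push Not at hbad
    obtain ⟨e, he, hpe⟩ := hbad
    have split : ∀ f ∈ E (insert t K), f ∈ E K ∨ ∃ y ∈ K, f = s(t, y) := by
      intro f
      induction f with
      | _ x y =>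
        rw [mem_E, mem_E, mem_insert, mem_insert]
        rintro ⟨h4 | h4, h5 | h5, h6⟩
        · exact absurd (h4.trans h5.symm) h6
        · exact Or.inr ⟨y, h5, by rw [h4]⟩
        · exact Or.inr ⟨x, h4, by rw [h5, Sym2.eq_swap]⟩
        · exact Or.inl ⟨h4, h5, h6⟩
    have key : ∀ f ∈ E K, ∀ y ∈ K, p f = s(t, y) → t ∈ B1 := by
      intro f hf y hy hfy
      refine mem_biUnion.2 ⟨f, hf, ?_⟩
      rw [mem_filter]
      refine ⟨htUK, ?_, y, hy, ?_⟩
      · rw [hfy]
        exact Sym2.mem_mk_left t y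
      · rw [hfy]
        exact Sym2.mem_mk_right t y
    rw [mem_union]
    rcases split e he with h4 | ⟨x, hx, h4⟩
    · rcases split _ hpe with h5 | ⟨y, hy, h5⟩
      · exact absurd h5 (hgood e h4)
      · exact Or.inl (key e h4 y hy h5)
    · rcases split _ hpe with h5 | ⟨y, hy, h5⟩
      · left
        refine key (p e) h5 x hx ?_
        rw [hp.inv e (not_diag_of_mem_E he), h4]
      · right
        have htx : t ≠ x := fun h => htK (h ▸ hx)
        have hty : t ≠ y := fun h => htK (h ▸ hy)
        have hxy : x ≠ y := by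
          intro h
          apply hfix s(t, x) (mem_E.2 ⟨htU, hKU hx, htx⟩)
          rw [← h4, h5, h4, h]
        have v1 : vv p t x y ≠ 0 := by
          rw [vv, if_pos ⟨htx, hxy, hty, by rw [← h4, h5]⟩]
          exact one_ne_zero
        have v2 : vv p t y x ≠ 0 := by
          have v3 : p s(t, y) = s(t, x) := by
            rw [← h5, hp.inv e (not_diag_of_mem_E he), h4]
          rw [vv, if_pos ⟨hty, hxy.symm, htx, v3⟩]
          exact one_ne_zero
        rw [mem_filter]
        refine ⟨htU, ?_⟩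
        simp only [g]
        simp only [hK, mem_insert, mem_singleton] at hx hy
        rcases hx with rfl | rfl | rfl | rfl <;> rcases hy with rfl | rfl | rfl | rfl <;>
          first
            | exact absurd rfl hxy
            | omega
  refine (card_le_card h3).trans ((card_union_le _ _).trans ?_)
  omega

end quad

section final

variable {V : Type*} [DecidableEq V] [Fintype V] {p : Sym2 V → Sym2 V}

theorem final (hp : IsPairing p)
    (H : ∀ S : Finset V, #S = 5 → Good p S → ∃ S' : Finset V, #S' = 5 ∧ Img p S S')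
    {U K G : Finset V} (hfix : ∀ e ∈ E U, p e ≠ e) (hK : #K = 4) (hGU : G ⊆ U)
    (hG : ∀ t ∈ G, t ∉ K ∧ Good p (insert t K)) (hcard : Fintype.card V + 7 ≤ 2 * #G) : False := by
  classical
  have hV : #G ≤ Fintype.card V := card_le_univ G
  obtain ⟨K', τ, hK', hτ, hinj, hmain⟩ := core hp H hK hG (by omega)
  set V1 : Finset V := G \ K' with hV1
  have hV1c : #G ≤ #V1 + 4 := by
    have := le_card_sdiff K' G
    rw [← hV1] at this
    omega
  have hV1G : V1 ⊆ G := sdiff_subset
  have key : ∀ t ∈ V1, ∀ u ∈ V1, t ≠ u → p s(t, u) = s(τ t, τ u) := by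
    intro t ht u hu htu
    rw [hV1, mem_sdiff] at ht hu
    exact hmain t ht.1 u hu.1 htu ht.2 hu.2 (hfix _ (mem_E.2 ⟨hGU ht.1, hGU hu.1, htu⟩))
  set W : Finset V := {t ∈ V1 | τ t ∈ V1} with hW
  have hinj1 : Set.InjOn τ V1 := hinj.mono (by exact_mod_cast hV1G)
  have hWc : 3 ≤ #W := by
    have h1 : V1.image τ ∪ V1 ⊆ univ \ K' := by
      intro v hv
      rw [mem_sdiff]
      refine ⟨mem_univ v, ?_⟩
      rcases mem_union.1 hv with h | h
      · obtain ⟨t, ht, rfl⟩ := mem_image.1 h
        exact hτ t (hV1G ht)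
      · exact (mem_sdiff.1 h).2
    have h2 : #(V1.image τ ∪ V1) + 4 ≤ Fintype.card V := by
      have h3 := card_le_card h1
      rw [card_sdiff_of_subset (subset_univ _), card_univ, hK'] at h3
      have h4 : #K' ≤ Fintype.card V := card_le_univ K'
      omega
    have h3 : #(V1.image τ) = #V1 := card_image_of_injOn hinj1
    have h4 := card_union_add_card_inter (V1.image τ) V1
    have h5 : V1.image τ ∩ V1 ⊆ W.image τ := by
      intro v hv
      rw [mem_inter] at hv
      obtain ⟨t, ht, rfl⟩ := mem_image.1 hv.1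
      exact mem_image.2 ⟨t, mem_filter.2 ⟨ht, hv.2⟩, rfl⟩
    have h6 := (card_le_card h5).trans card_image_le
    omega
  have hWV : ∀ t ∈ W, t ∈ V1 ∧ τ t ∈ V1 := fun t ht => mem_filter.1 ht
  have hττ : ∀ t ∈ W, τ (τ t) = t := by
    intro t ht
    have h1 : ∀ w ∈ W, w ≠ t → τ (τ t) = t ∨ τ (τ t) = w := by
      intro w hw hwt
      have h2 := key t (hWV t ht).1 w (hWV w hw).1 hwt.symm
      have h3 : τ t ≠ τ w := fun h => hwt (hinj1 (hWV w hw).1 (hWV t ht).1 h.symm)
      have h4 := key (τ t) (hWV t ht).2 (τ w) (hWV w hw).2 h3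
      rw [← h2, hp.inv _ (by simpa using hwt.symm)] at h4
      rcases Sym2.eq_iff.1 h4 with ⟨h5, -⟩ | ⟨-, h5⟩
      · exact Or.inl h5.symm
      · exact Or.inr h5.symm
    have h2 : 2 ≤ #(W.erase t) := by
      rw [card_erase_of_mem ht]
      omega
    obtain ⟨w, hw, w', hw', hww'⟩ := one_lt_card.1 (by omega : 1 < #(W.erase t))
    rw [mem_erase] at hw hw'
    rcases h1 w hw.2 hw.1 with h3 | h3
    · exact h3
    · rcases h1 w' hw'.2 hw'.1 with h4 | h4
      · exact h4
      · exact absurd (h3.symm.trans h4) hww'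
  have hτfix : ∀ t ∈ W, τ t = t := by
    intro t ht
    by_contra hne
    have h1 := key t (hWV t ht).1 (τ t) (hWV t ht).2 (Ne.symm hne)
    rw [hττ t ht, Sym2.eq_swap (a := τ t)] at h1
    exact hfix _ (mem_E.2 ⟨hGU (hV1G (hWV t ht).1), hGU (hV1G (hWV t ht).2), Ne.symm hne⟩) h1
  obtain ⟨t, ht, w, hw, htw⟩ := one_lt_card.1 (by omega : 1 < #W)
  have h1 := key t (hWV t ht).1 w (hWV w hw).1 htw
  rw [hτfix t ht, hτfix w hw] at h1
  exact hfix _ (mem_E.2 ⟨hGU (hV1G (hWV t ht).1), hGU (hV1G (hWV w hw).1), htw⟩) h1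

/-- **No pairing respects the cliques of order `5`.**  Let `p` be an involution of the edges of the
complete graph on `V`, `|V| ≥ 49`, such that the fixed edges have at most four end points.  Then
there is a set `S` of five vertices such that no edge of `S` is paired with an edge of `S` (in
particular no edge of `S` is fixed) and the partners of the edges of `S` do not form a clique of
order `5`. -/
theorem exists_bad (hV : 49 ≤ Fintype.card V) (hp : IsPairing p) {D : Finset V} (hD : #D ≤ 4)
    (hfixD : ∀ e : Sym2 V, ¬ e.IsDiag → p e = e → ∃ v ∈ D, v ∈ e) :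
    ∃ S : Finset V, #S = 5 ∧ Good p S ∧ ¬ ∃ S' : Finset V, #S' = 5 ∧ Img p S S' := by
  classical
  by_contra hcon
  have H : ∀ S : Finset V, #S = 5 → Good p S → ∃ S' : Finset V, #S' = 5 ∧ Img p S S' := by
    intro S h1 h2
    by_contra h3
    exact hcon ⟨S, h1, h2, h3⟩
  set U : Finset V := univ \ D with hU
  have hUc : Fintype.card V ≤ #U + 4 := by
    have := le_card_sdiff D (univ : Finset V)
    rw [card_univ, ← hU] at this
    omega
  have hfix : ∀ e ∈ E U, p e ≠ e := by
    intro e he h
    obtain ⟨v, hv, hve⟩ := hfixD e (not_diag_of_mem_E he) h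
    have h1 : v ∈ U := by
      have h2 := (mem_filter.1 he).1
      exact (mem_sym2_iff.1 h2) v hve
    exact (mem_sdiff.1 h1).2 hv
  obtain ⟨a, ha, b, hb, c, hc, d, hd, hcost⟩ := exists_quad p U (by omega)
  unfold cost at hcost
  have q0 : qq a b + qq a c + qq a d + qq b c + qq b d + qq c d = 0 := by omega
  have t0 : TT p a b c + TT p a b d + TT p a c d + TT p b c d = 0 := by omega
  have d0 : DD p a b c d = 0 := by omega
  have hab := qq_zero (x := a) (y := b) (by omega)
  have hac := qq_zero (x := a) (y := c) (by omega)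
  have had := qq_zero (x := a) (y := d) (by omega)
  have hbc := qq_zero (x := b) (y := c) (by omega)
  have hbd := qq_zero (x := b) (y := d) (by omega)
  have hcd := qq_zero (x := c) (y := d) (by omega)
  have hK4 : #({a, b, c, d} : Finset V) = 4 := by
    rw [card_insert_of_notMem, card_insert_of_notMem, card_insert_of_notMem, card_singleton]
    · simp [hcd]
    · simp [hbc, hbd]
    · simp [hab, hac, had]
  have hKU : ({a, b, c, d} : Finset V) ⊆ U := by
    intro v hv
    simp only [mem_insert, mem_singleton] at hv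
    rcases hv with rfl | rfl | rfl | rfl <;> assumption
  have hgood := good_of_quad (p := p) (a := a) (b := b) (c := c) (d := d) (by omega) (by omega)
    (by omega) (by omega) d0 hfix hKU
  have hbad := card_bad hp rfl hfix hKU hgood hK4
  set K : Finset V := {a, b, c, d} with hKdef
  set G : Finset V := {t ∈ U \ K | Good p (insert t K)} with hG
  have hGc : #G + #{t ∈ U \ K | ¬ Good p (insert t K)} = #(U \ K) := by
    rw [hG]
    exact card_filter_add_card_filter_not _
  have hUK : #(U \ K) + 4 = #U := by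
    have h1 := card_le_card hKU
    rw [card_sdiff_of_subset hKU, hK4]
    omega
  refine final hp H hfix hK4 (G := G) ?_ ?_ ?_
  · exact (filter_subset _ _).trans sdiff_subset
  · intro t ht
    rw [hG, mem_filter, mem_sdiff] at ht
    exact ⟨ht.1.2, ht.2⟩
  · omega

end final

end Pairing

end RCG
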