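import Pool.Agent.Work.MP_1ad43c_co.Defs

/-!
# Pairings of the edges of a complete graph
-/

namespace RCG

namespace Pairing

open Finset

section basics

variable {V : Type*} [DecidableEq V]

/-- the edges of the complete graph on `S` -/
def E (S : Finset V) : Finset (Sym2 V) := {e ∈ S.sym2 | ¬ e.IsDiag}

theorem mem_E {S : Finset V} {a b : V} : s(a, b) ∈ E S ↔ a ∈ S ∧ b ∈ S ∧ a ≠ b := by
  simp [E, and_assoc]

theorem not_diag_of_mem_E {S : Finset V} {e : Sym2 V} (h : e ∈ E S) : ¬ e.IsDiag :=
  (mem_filter.1 h).2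

theorem E_inter (S T : Finset V) : E S ∩ E T = E (S ∩ T) := by
  ext e
  induction e with
  | _ a b =>
    simp only [mem_inter, mem_E]
    tauto

theorem E_mono {S T : Finset V} (h : S ⊆ T) : E S ⊆ E T := by
  intro e
  induction e with
  | _ a b =>
    simp only [mem_E]
    exact fun ⟨h1, h2, h3⟩ => ⟨h h1, h h2, h3⟩

theorem card_E (S : Finset V) : #(E S) = (#S).choose 2 := by
  have h : E S = S.offDiag.image Sym2.mk.uncurry := by
    ext e
    induction e with
    | _ a b =>
      rw [mem_E]
      simp only [mem_image, mem_offDiag, Prod.exists]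
      constructor
      · rintro ⟨h1, h2, h3⟩
        exact ⟨a, b, ⟨h1, h2, h3⟩, rfl⟩
      · rintro ⟨x, y, ⟨h1, h2, h3⟩, h4⟩
        rcases Sym2.eq_iff.1 h4 with ⟨rfl, rfl⟩ | ⟨rfl, rfl⟩
        · exact ⟨h1, h2, h3⟩
        · exact ⟨h2, h1, h3.symm⟩
  rw [h, Sym2.card_image_offDiag]

theorem subset_of_E {S T : Finset V} (hS : 2 ≤ #S) (h : E S ⊆ E T) : S ⊆ T := by
  intro a ha
  obtain ⟨b, hb, hab⟩ := exists_mem_ne hS a
  have := h (mem_E.2 ⟨ha, hb, hab.symm⟩)
  exact (mem_E.1 this).1

/-- an involution of the edges -/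
structure IsPairing (p : Sym2 V → Sym2 V) : Prop where
  nd : ∀ e, ¬ e.IsDiag → ¬ (p e).IsDiag
  inv : ∀ e, ¬ e.IsDiag → p (p e) = e

omit [DecidableEq V] in
theorem IsPairing.inj {p : Sym2 V → Sym2 V} (hp : IsPairing p) {e f : Sym2 V} (he : ¬ e.IsDiag)
    (hf : ¬ f.IsDiag) (h : p e = p f) : e = f := by
  rw [← hp.inv e he, h, hp.inv f hf]

/-- no edge of `S` is paired with an edge of `S` -/
def Good (p : Sym2 V → Sym2 V) (S : Finset V) : Prop := ∀ e ∈ E S, p e ∉ E S

/-- the partners of the edges of `S` are edges of `S'` -/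
def Img (p : Sym2 V → Sym2 V) (S S' : Finset V) : Prop := ∀ e ∈ E S, p e ∈ E S'

section

variable {p : Sym2 V → Sym2 V} (hp : IsPairing p) {S S' T T' : Finset V}

include hp

theorem img_iff (hc : #S = #S') (h : Img p S S') {e : Sym2 V} (he : ¬ e.IsDiag) :
    p e ∈ E S' ↔ e ∈ E S := by
  refine ⟨fun h1 => ?_, h e⟩
  have h2 : (E S).image p = E S' := by
    apply eq_of_subset_of_card_le
    · intro f hf
      obtain ⟨g, hg, rfl⟩ := mem_image.1 hf
      exact h g hg
    · rw [card_image_of_injOn, card_E, card_E, hc]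
      intro f hf g hg hfg
      exact hp.inj (not_diag_of_mem_E hf) (not_diag_of_mem_E hg) hfg
  rw [← h2] at h1
  obtain ⟨g, hg, hge⟩ := mem_image.1 h1
  rwa [← hp.inj (not_diag_of_mem_E hg) he hge]

theorem choose_inter (hc : #S = #S') (h : Img p S S') (hc' : #T = #T') (h' : Img p T T') :
    (#(S ∩ T)).choose 2 = (#(S' ∩ T')).choose 2 := by
  rw [← card_E, ← card_E]
  have h2 : (E (S ∩ T)).image p = E (S' ∩ T') := by
    ext f
    rw [mem_image, ← E_inter, ← E_inter]
    constructor
    · rintro ⟨g, hg, rfl⟩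
      rw [mem_inter] at hg ⊢
      exact ⟨h g hg.1, h' g hg.2⟩
    · intro hf
      rw [mem_inter] at hf
      have hfd := not_diag_of_mem_E hf.1
      refine ⟨p f, ?_, hp.inv f hfd⟩
      rw [mem_inter]
      have h3 := hp.nd f hfd
      have h4 := hp.inv f hfd
      constructor
      · rw [← img_iff hp hc h h3, h4]
        exact hf.1
      · rw [← img_iff hp hc' h' h3, h4]
        exact hf.2
  rw [← h2, card_image_of_injOn]
  intro f hf g hg hfg
  exact hp.inj (not_diag_of_mem_E hf) (not_diag_of_mem_E hg) hfg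

omit hp in
omit [DecidableEq V] in
theorem choose_four {k : ℕ} (h5 : k ≤ 5) (h : Nat.choose 4 2 = k.choose 2) : k = 4 := by
  interval_cases k <;> simp_all [Nat.choose]

omit hp in
omit [DecidableEq V] in
theorem choose_three {k : ℕ} (h5 : k ≤ 5) (h : Nat.choose 3 2 = k.choose 2) : k = 3 := by
  interval_cases k <;> simp_all [Nat.choose]

end

end basics

section core

variable {V : Type*} [DecidableEq V] {p : Sym2 V → Sym2 V}

/-- **The map of the vertices.**  `K` has four elements, `K + t` is good for all `t ∈ G`. -/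
theorem core (hp : IsPairing p)
    (H : ∀ S : Finset V, #S = 5 → Good p S → ∃ S' : Finset V, #S' = 5 ∧ Img p S S')
    {K G : Finset V} (hK : #K = 4) (hG : ∀ t ∈ G, t ∉ K ∧ Good p (insert t K)) (hG2 : 2 ≤ #G) :
    ∃ (K' : Finset V) (τ : V → V), #K' = 4 ∧ (∀ t ∈ G, τ t ∉ K') ∧ Set.InjOn τ G ∧
      ∀ t ∈ G, ∀ u ∈ G, t ≠ u → t ∉ K' → u ∉ K' → p s(t, u) ≠ s(t, u) →
        p s(t, u) = s(τ t, τ u) := by
  classical
  have h5 : ∀ t ∈ G, #(insert t K) = 5 := fun t ht => by
    rw [card_insert_of_notMem (hG t ht).1, hK]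
  have H1 : ∀ t : V, ∃ S' : Finset V, t ∈ G → #S' = 5 ∧ Img p (insert t K) S' := by
    intro t
    by_cases ht : t ∈ G
    · obtain ⟨S', h⟩ := H _ (h5 t ht) (hG t ht).2
      exact ⟨S', fun _ => h⟩
    · exact ⟨∅, fun h => absurd h ht⟩
  choose R hR using H1
  -- distinct images
  have hRne : ∀ t ∈ G, ∀ u ∈ G, t ≠ u → R t ≠ R u := by
    intro t ht u hu htu hRR
    have h1 : insert t K ⊆ insert u K := by
      apply subset_of_E (by rw [h5 t ht]; norm_num)
      intro e he
      rw [← img_iff hp ((h5 u hu).trans (hR u hu).1.symm) (hR u hu).2 (not_diag_of_mem_E he), ← hRR]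
      exact (hR t ht).2 e he
    have h2 : t ∈ insert u K := h1 (mem_insert_self t K)
    rcases mem_insert.1 h2 with h | h
    · exact htu h
    · exact (hG t ht).1 h
  -- the set `K'`
  obtain ⟨t₀, ht₀, u₀, hu₀, htu₀⟩ := one_lt_card.1 (by omega : 1 < #G)
  have hint : ∀ t ∈ G, ∀ u ∈ G, t ≠ u → insert t K ∩ insert u K = K := by
    intro t ht u hu htu
    ext x
    simp only [mem_inter, mem_insert]
    constructor
    · rintro ⟨h1 | h1, h2 | h2⟩
      · exact absurd (h1.symm.trans h2) htu
      · exact h2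
      · exact h1
      · exact h1
    · exact fun h => ⟨Or.inr h, Or.inr h⟩
  have hcard : ∀ t ∈ G, ∀ u ∈ G, t ≠ u → #(R t ∩ R u) = 4 := by
    intro t ht u hu htu
    have h1 := choose_inter hp ((h5 t ht).trans (hR t ht).1.symm) (hR t ht).2
      ((h5 u hu).trans (hR u hu).1.symm) (hR u hu).2
    rw [hint t ht u hu htu, hK] at h1
    exact choose_four ((card_le_card inter_subset_left).trans (hR t ht).1.le) h1
  set K' : Finset V := R t₀ ∩ R u₀ with hK'
  have hK'4 : #K' = 4 := hcard t₀ ht₀ u₀ hu₀ htu₀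
  have hKK' : Img p K K' := by
    intro e he
    rw [hK', ← E_inter, mem_inter]
    exact ⟨(hR t₀ ht₀).2 e (E_mono (subset_insert _ _) he),
      (hR u₀ hu₀).2 e (E_mono (subset_insert _ _) he)⟩
  have hK'R : ∀ t ∈ G, K' ⊆ R t := by
    intro t ht
    apply subset_of_E (by omega)
    intro e he
    have hed := not_diag_of_mem_E he
    have h1 : p e ∈ E K := by
      rw [← img_iff hp (hK.trans hK'4.symm) hKK' (hp.nd e hed), hp.inv e hed]
      exact he
    have h2 := (hR t ht).2 (p e) (E_mono (subset_insert _ _) h1)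
    rwa [hp.inv e hed] at h2
  have hτ : ∀ t : V, ∃ v : V, t ∈ G → v ∉ K' ∧ R t = insert v K' := by
    intro t
    by_cases ht : t ∈ G
    · have h1 : #(R t \ K') = 1 := by
        rw [card_sdiff_of_subset (hK'R t ht), (hR t ht).1, hK'4]
      obtain ⟨v, hv⟩ := card_eq_one.1 h1
      refine ⟨v, fun _ => ?_⟩
      have h2 : v ∈ R t \ K' := by rw [hv]; exact mem_singleton_self v
      refine ⟨(mem_sdiff.1 h2).2, ?_⟩
      have h3 : R t = (R t \ K') ∪ K' := (sdiff_union_of_subset (hK'R t ht)).symm
      rw [h3, hv]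
      rfl
    · exact ⟨t, fun h => absurd h ht⟩
  choose τ hτ using hτ
  refine ⟨K', τ, hK'4, fun t ht => (hτ t ht).1, ?_, ?_⟩
  · intro t ht u hu h
    by_contra htu
    apply hRne t ht u hu htu
    rw [(hτ t ht).2, (hτ u hu).2, h]
  intro t ht u hu htu htK huK hfix
  have hne : τ t ≠ τ u := by
    intro h
    apply hRne t ht u hu htu
    rw [(hτ t ht).2, (hτ u hu).2, h]
  -- at most one common vertex of `K` and `K'`
  have hKgood : ∀ e ∈ E K, p e ∉ E K := fun e he h =>
    (hG t ht).2 e (E_mono (subset_insert _ _) he) (E_mono (subset_insert _ _) h)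
  have hone : #(K ∩ K') ≤ 1 := by
    by_contra hcon
    push Not at hcon
    obtain ⟨a, ha, b, hb, hab⟩ := one_lt_card.1 hcon
    rw [mem_inter] at ha hb
    have h1 : s(a, b) ∈ E K := mem_E.2 ⟨ha.1, hb.1, hab⟩
    have h2 : s(a, b) ∈ E K' := mem_E.2 ⟨ha.2, hb.2, hab⟩
    have hd := not_diag_of_mem_E h1
    have h3 : p s(a, b) ∈ E K := by
      rw [← img_iff hp (hK.trans hK'4.symm) hKK' (hp.nd _ hd), hp.inv _ hd]
      exact h2
    exact hKgood _ h1 h3
  obtain ⟨x, hxK, hx⟩ : ∃ x ∈ K, K ∩ K' ⊆ {x} := by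
    rcases (K ∩ K').eq_empty_or_nonempty with h | ⟨x, hx⟩
    · obtain ⟨x, hx⟩ := card_pos.1 (by omega : 0 < #K)
      exact ⟨x, hx, by rw [h]; exact empty_subset _⟩
    · refine ⟨x, (mem_inter.1 hx).1, fun y hy => mem_singleton.2 ?_⟩
      exact card_le_one.1 hone y hy x hx
  -- the set `S = K - x + t + u`
  set S : Finset V := insert t (insert u (K.erase x)) with hS
  have htK' := (hG t ht).1
  have huK' := (hG u hu).1
  have hS5 : #S = 5 := by
    rw [hS, card_insert_of_notMem, card_insert_of_notMem, card_erase_of_mem hxK, hK]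
    · simp [huK']
    · simp [htK', htu]
  have hSK' : ∀ v ∈ S, v ∉ K' := by
    intro v hv
    rw [hS, mem_insert, mem_insert, mem_erase] at hv
    rcases hv with rfl | rfl | ⟨hvx, hvK⟩
    · exact htK
    · exact huK
    · intro h
      exact hvx (mem_singleton.1 (hx (mem_inter.2 ⟨hvK, h⟩)))
  have hcl : ∀ w ∈ G, ∀ e ∈ E (insert w K), p e ∉ E S := by
    intro w hw e he h
    have h1 := (hR w hw).2 e he
    rw [(hτ w hw).2] at h1
    generalize p e = f at h h1
    induction f with
    | _ a b =>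
      rw [mem_E] at h h1
      have ha := hSK' a h.1
      have hb := hSK' b h.2.1
      have ha1 : a = τ w := by
        rcases mem_insert.1 h1.1 with h2 | h2
        · exact h2
        · exact absurd h2 ha
      have hb1 : b = τ w := by
        rcases mem_insert.1 h1.2.1 with h2 | h2
        · exact h2
        · exact absurd h2 hb
      exact h.2.2 (ha1.trans hb1.symm)
  have hcases : ∀ e ∈ E S, e ∈ E (insert t K) ∨ e ∈ E (insert u K) ∨ e = s(t, u) := by
    intro e
    induction e with
    | _ a b =>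
      rw [hS, mem_E]
      rintro ⟨h1, h2, h3⟩
      simp only [mem_insert, mem_erase] at h1 h2
      simp only [mem_E, mem_insert, Sym2.eq_iff]
      rcases h1 with rfl | rfl | ⟨_, h1⟩ <;> rcases h2 with rfl | rfl | ⟨_, h2⟩ <;> tauto
  have hgood : Good p S := by
    intro e he h
    rcases hcases e he with h1 | h1 | h1
    · exact hcl t ht e h1 h
    · exact hcl u hu e h1 h
    · rcases hcases _ h with h2 | h2 | h2
      · have := hcl t ht _ h2
        rw [hp.inv e (not_diag_of_mem_E he)] at this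
        exact this he
      · have := hcl u hu _ h2
        rw [hp.inv e (not_diag_of_mem_E he)] at this
        exact this he
      · rw [h1] at h2
        exact hfix h2
  obtain ⟨S', hS'5, hS'⟩ := H S hS5 hgood
  have hIt : #(S' ∩ R t) = 4 := by
    have h1 := choose_inter hp (hS5.trans hS'5.symm) hS' ((h5 t ht).trans (hR t ht).1.symm)
      (hR t ht).2
    have h2 : S ∩ insert t K = insert t (K.erase x) := by
      ext v
      simp only [hS, mem_inter, mem_insert, mem_erase]
      constructor
      · rintro ⟨h3 | h3 | h3, h4⟩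
        · exact Or.inl h3
        · rcases h4 with h4 | h4
          · exact Or.inl h4
          · exact absurd (h3 ▸ h4) huK'
        · exact Or.inr h3
      · rintro (h3 | h3)
        · exact ⟨Or.inl h3, Or.inl h3⟩
        · exact ⟨Or.inr (Or.inr h3), Or.inr h3.2⟩
    rw [h2, card_insert_of_notMem (by simp [htK']), card_erase_of_mem hxK, hK] at h1
    exact choose_four ((card_le_card inter_subset_left).trans hS'5.le) h1
  have hIu : #(S' ∩ R u) = 4 := by
    have h1 := choose_inter hp (hS5.trans hS'5.symm) hS' ((h5 u hu).trans (hR u hu).1.symm)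
      (hR u hu).2
    have h2 : S ∩ insert u K = insert u (K.erase x) := by
      ext v
      simp only [hS, mem_inter, mem_insert, mem_erase]
      constructor
      · rintro ⟨h3 | h3 | h3, h4⟩
        · rcases h4 with h4 | h4
          · exact Or.inl h4
          · exact absurd (h3 ▸ h4) htK'
        · exact Or.inl h3
        · exact Or.inr h3
      · rintro (h3 | h3)
        · exact ⟨Or.inr (Or.inl h3), Or.inl h3⟩
        · exact ⟨Or.inr (Or.inr h3), Or.inr h3.2⟩
    rw [h2, card_insert_of_notMem (by simp [huK']), card_erase_of_mem hxK, hK] at h1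
    exact choose_four ((card_le_card inter_subset_left).trans hS'5.le) h1
  have hIK : #(S' ∩ K') = 3 := by
    have h1 := choose_inter hp (hS5.trans hS'5.symm) hS' (hK.trans hK'4.symm) hKK'
    have h2 : S ∩ K = K.erase x := by
      ext v
      simp only [hS, mem_inter, mem_insert, mem_erase]
      constructor
      · rintro ⟨h3 | h3 | h3, h4⟩
        · exact absurd (h3 ▸ h4) htK'
        · exact absurd (h3 ▸ h4) huK'
        · exact h3
      · exact fun h3 => ⟨Or.inr (Or.inr h3), h3.2⟩
    rw [h2, card_erase_of_mem hxK, hK] at h1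
    exact choose_three ((card_le_card inter_subset_left).trans hS'5.le) h1
  have hτt : τ t ∈ S' := by
    by_contra h
    have h1 : S' ∩ R t ⊆ S' ∩ K' := by
      rw [(hτ t ht).2]
      intro v hv
      rw [mem_inter, mem_insert] at hv
      rcases hv.2 with h2 | h2
      · exact absurd (h2 ▸ hv.1) h
      · exact mem_inter.2 ⟨hv.1, h2⟩
    have := card_le_card h1
    omega
  have hτu : τ u ∈ S' := by
    by_contra h
    have h1 : S' ∩ R u ⊆ S' ∩ K' := by
      rw [(hτ u hu).2]
      intro v hv
      rw [mem_inter, mem_insert] at hv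
      rcases hv.2 with h2 | h2
      · exact absurd (h2 ▸ hv.1) h
      · exact mem_inter.2 ⟨hv.1, h2⟩
    have := card_le_card h1
    omega
  have hS'sub : S' = insert (τ t) (insert (τ u) (S' ∩ K')) := by
    symm
    apply eq_of_subset_of_card_le
    · intro v hv
      rw [mem_insert, mem_insert] at hv
      rcases hv with rfl | rfl | hv
      · exact hτt
      · exact hτu
      · exact (mem_inter.1 hv).1
    · rw [card_insert_of_notMem, card_insert_of_notMem, hIK, hS'5]
      · intro h
        exact (hτ u hu).1 (mem_inter.1 h).2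
      · rw [mem_insert]
        rintro (h | h)
        · exact hne h
        · exact (hτ t ht).1 (mem_inter.1 h).2
  have hE1 : p s(t, u) ∈ E S' := by
    apply hS'
    rw [mem_E, hS]
    exact ⟨mem_insert_self _ _, mem_insert_of_mem (mem_insert_self _ _), htu⟩
  have hd : ¬ (s(t, u)).IsDiag := by simpa using htu
  have hE2 : p s(t, u) ∉ E (R t) := by
    rw [img_iff hp ((h5 t ht).trans (hR t ht).1.symm) (hR t ht).2 hd, mem_E]
    rintro ⟨-, h, -⟩
    rcases mem_insert.1 h with h1 | h1
    · exact htu h1.symm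
    · exact huK' h1
  have hE3 : p s(t, u) ∉ E (R u) := by
    rw [img_iff hp ((h5 u hu).trans (hR u hu).1.symm) (hR u hu).2 hd, mem_E]
    rintro ⟨h, -, -⟩
    rcases mem_insert.1 h with h1 | h1
    · exact htu h1
    · exact htK' h1
  rw [(hτ t ht).2] at hE2
  rw [(hτ u hu).2] at hE3
  rw [hS'sub] at hE1
  generalize p s(t, u) = f at hE1 hE2 hE3
  induction f with
  | _ a b =>
    simp only [mem_E, mem_insert, mem_inter] at hE1 hE2 hE3
    rw [Sym2.eq_iff]
    obtain ⟨h1, h2, h3⟩ := hE1
    rcases h1 with h1 | h1 | ⟨_, h1⟩ <;> rcases h2 with h2 | h2 | ⟨_, h2⟩ <;> tauto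

end core

end Pairing

end RCG
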