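import Pool.Agent.Work.MP_1ad43c_co.Near

/-!
# Mirror strategies in the reverse clique game
-/

set_option autoImplicit false
set_option linter.unusedSectionVars false

namespace RCG

open Finset

variable {N : ℕ}

theorem mem_full {e : Sym2 (Fin N)} : e ∈ full N ↔ ¬ e.IsDiag := by simp [full]

section mirror

variable (σ : Fin N → Fin N)

/-- the axis edges -/
def axis : Finset (Sym2 (Fin N)) := (full N).filter fun e => Sym2.map σ e = e

/-- the unclaimed axis edges -/
def fa (X Y : Finset (Sym2 (Fin N))) : Finset (Sym2 (Fin N)) :=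
  (axis σ).filter fun e => e ∉ X ∧ e ∉ Y

variable {σ}

theorem mem_fa {X Y : Finset (Sym2 (Fin N))} {e : Sym2 (Fin N)} :
    e ∈ fa σ X Y ↔ (e ∈ full N ∧ Sym2.map σ e = e) ∧ e ∉ X ∧ e ∉ Y := by
  simp [fa, axis]

theorem fa_right {X Y : Finset (Sym2 (Fin N))} {e : Sym2 (Fin N)} :
    fa σ X (insert e Y) = (fa σ X Y).erase e := by
  ext f
  rw [Finset.mem_erase, mem_fa, mem_fa, Finset.mem_insert]
  tauto

theorem fa_left {X Y : Finset (Sym2 (Fin N))} {e : Sym2 (Fin N)} :
    fa σ (insert e X) Y = (fa σ X Y).erase e := by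
  ext f
  rw [Finset.mem_erase, mem_fa, mem_fa, Finset.mem_insert]
  tauto

theorem map_full {e : Sym2 (Fin N)} (hσ : ∀ x, σ (σ x) = x) (he : e ∈ full N) :
    Sym2.map σ e ∈ full N := by
  rw [mem_full] at he ⊢
  have hinj : Function.Injective σ := fun x y h => by rw [← hσ x, h, hσ]
  rwa [Sym2.isDiag_map hinj]

theorem map_map' (hσ : ∀ x, σ (σ x) = x) (e : Sym2 (Fin N)) :
    Sym2.map σ (Sym2.map σ e) = e := by
  induction e with
  | h x y => rw [Sym2.map_mk, Sym2.map_mk, hσ, hσ]

/-- the invariant: `D` is the set of extra edges of `P` (at most one), the other edges off the axis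
are mirror images -/
structure Inv (σ : Fin N → Fin N) (D X Y : Finset (Sym2 (Fin N))) : Prop where
  hX : X ⊆ full N
  hY : Y ⊆ full N
  hXY : ∀ e ∈ X, e ∉ Y
  hDX : ∀ e ∈ D, e ∈ X ∧ Sym2.map σ e ≠ e ∧ Sym2.map σ e ∉ X ∧ Sym2.map σ e ∉ Y
  hDc : D.card ≤ 1
  hm : ∀ e ∈ full N, Sym2.map σ e ≠ e → e ∉ D → (e ∈ X ↔ Sym2.map σ e ∈ Y)

theorem inv_empty : Inv σ ∅ ∅ ∅ where
  hX := Finset.empty_subset _
  hY := Finset.empty_subset _
  hXY := by simp
  hDX := by simp
  hDc := by simp
  hm := by simp

theorem Inv.axis_both {D X Y : Finset (Sym2 (Fin N))} (h : Inv σ D X Y) {e f : Sym2 (Fin N)}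
    (he : e ∈ full N) (hea : Sym2.map σ e = e) (heX : e ∉ X)
    (hf : f ∈ full N) (hfa : Sym2.map σ f = f) (hfY : f ∉ Y) (hef : f ≠ e)
    (hσ : ∀ x, σ (σ x) = x) : Inv σ D (insert f X) (insert e Y) where
  hX := Finset.insert_subset hf h.hX
  hY := Finset.insert_subset he h.hY
  hXY := by
    intro g hg
    rw [Finset.mem_insert] at hg ⊢
    rintro (h1 | h1)
    · rcases hg with hg | hg
      · exact hef (hg.symm.trans h1)
      · exact heX (h1 ▸ hg)
    · rcases hg with hg | hg
      · exact hfY (hg ▸ h1)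
      · exact h.hXY g hg h1
  hDX := by
    intro g hg
    obtain ⟨h1, h2, h3, h4⟩ := h.hDX g hg
    refine ⟨Finset.mem_insert_of_mem h1, h2, ?_, ?_⟩
    · rw [Finset.mem_insert]
      rintro (h5 | h5)
      · apply h2
        rw [h5, ← map_map' hσ g, h5, hfa]
      · exact h3 h5
    · rw [Finset.mem_insert]
      rintro (h5 | h5)
      · apply h2
        rw [h5, ← map_map' hσ g, h5, hea]
      · exact h4 h5
  hDc := h.hDc
  hm := by
    intro g hg h1 h2
    have h3 : g ≠ f := by rintro rfl; exact h1 hfa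
    have h4 : Sym2.map σ g ≠ e := by
      intro h5
      apply h1
      rw [h5, ← map_map' hσ g, h5, hea]
    rw [Finset.mem_insert, Finset.mem_insert, or_iff_right h3, or_iff_right h4]
    exact h.hm g hg h1 h2

theorem Inv.axis_right {D X Y : Finset (Sym2 (Fin N))} (h : Inv σ D X Y) {e : Sym2 (Fin N)}
    (he : e ∈ full N) (hea : Sym2.map σ e = e) (heX : e ∉ X)
    (hσ : ∀ x, σ (σ x) = x) : Inv σ D X (insert e Y) where
  hX := h.hX
  hY := Finset.insert_subset he h.hY
  hXY := by
    intro g hg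
    rw [Finset.mem_insert]
    rintro (h1 | h1)
    · exact heX (h1 ▸ hg)
    · exact h.hXY g hg h1
  hDX := by
    intro g hg
    obtain ⟨h1, h2, h3, h4⟩ := h.hDX g hg
    refine ⟨h1, h2, h3, ?_⟩
    rw [Finset.mem_insert]
    rintro (h5 | h5)
    · apply h2
      rw [h5, ← map_map' hσ g, h5, hea]
    · exact h4 h5
  hDc := h.hDc
  hm := by
    intro g hg h1 h2
    have h4 : Sym2.map σ g ≠ e := by
      intro h5
      apply h1
      rw [h5, ← map_map' hσ g, h5, hea]
    rw [Finset.mem_insert, or_iff_right h4]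
    exact h.hm g hg h1 h2

theorem Inv.axis_left {D X Y : Finset (Sym2 (Fin N))} (h : Inv σ D X Y) {f : Sym2 (Fin N)}
    (hf : f ∈ full N) (hfa : Sym2.map σ f = f) (hfY : f ∉ Y)
    (hσ : ∀ x, σ (σ x) = x) : Inv σ D (insert f X) Y where
  hX := Finset.insert_subset hf h.hX
  hY := h.hY
  hXY := by
    intro g hg
    rw [Finset.mem_insert] at hg
    rcases hg with hg | hg
    · rw [hg]; exact hfY
    · exact h.hXY g hg
  hDX := by
    intro g hg
    obtain ⟨h1, h2, h3, h4⟩ := h.hDX g hg
    refine ⟨Finset.mem_insert_of_mem h1, h2, ?_, h4⟩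
    rw [Finset.mem_insert]
    rintro (h5 | h5)
    · apply h2
      rw [h5, ← map_map' hσ g, h5, hfa]
    · exact h3 h5
  hDc := h.hDc
  hm := by
    intro g hg h1 h2
    have h3 : g ≠ f := by rintro rfl; exact h1 hfa
    rw [Finset.mem_insert, or_iff_right h3]
    exact h.hm g hg h1 h2

/-- the mirror move -/
theorem Inv.mirror {D X Y : Finset (Sym2 (Fin N))} (h : Inv σ D X Y) {e : Sym2 (Fin N)}
    (hσ : ∀ x, σ (σ x) = x) (he : e ∈ full N) (hea : Sym2.map σ e ≠ e) (heX : e ∉ X)
    (heY : e ∉ Y) (heD : Sym2.map σ e ∉ D) :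
    Sym2.map σ e ∉ X ∧ Sym2.map σ e ∉ Y ∧ Inv σ D (insert (Sym2.map σ e) X) (insert e Y) := by
  have hfe : Sym2.map σ (Sym2.map σ e) ≠ Sym2.map σ e := by rw [map_map' hσ]; exact hea.symm
  have h1 : Sym2.map σ e ∉ X := by
    intro h2
    have := (h.hm _ (map_full hσ he) hfe heD).1 h2
    rw [map_map' hσ] at this
    exact heY this
  have heD' : e ∉ D := fun h2 => heX (h.hDX e h2).1
  have h2 : Sym2.map σ e ∉ Y := fun h3 => heX ((h.hm e he hea heD').2 h3)
  refine ⟨h1, h2, ?_, ?_, ?_, ?_, h.hDc, ?_⟩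
  · exact Finset.insert_subset (map_full hσ he) h.hX
  · exact Finset.insert_subset he h.hY
  · intro g hg
    rw [Finset.mem_insert] at hg ⊢
    rintro (h3 | h3)
    · rcases hg with hg | hg
      · exact hea (hg.symm.trans h3)
      · exact heX (h3 ▸ hg)
    · rcases hg with hg | hg
      · exact h2 (hg ▸ h3)
      · exact h.hXY g hg h3
  · intro g hg
    obtain ⟨h3, h4, h5, h6⟩ := h.hDX g hg
    refine ⟨Finset.mem_insert_of_mem h3, h4, ?_, ?_⟩
    · rw [Finset.mem_insert]
      rintro (h7 | h7)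
      · have : g = e := by rw [← map_map' hσ g, h7, map_map' hσ]
        exact heX (this ▸ h3)
      · exact h5 h7
    · rw [Finset.mem_insert]
      rintro (h7 | h7)
      · exact heD (by rw [← h7, map_map' hσ]; exact hg)
      · exact h6 h7
  · intro g hg h3 h4
    rw [Finset.mem_insert, Finset.mem_insert, h.hm g hg h3 h4]
    constructor
    · rintro (h5 | h5)
      · left; rw [h5, map_map' hσ]
      · right; exact h5
    · rintro (h5 | h5)
      · left; rw [← h5, map_map' hσ]
      · right; exact h5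

variable {badP badQ : Finset (Sym2 (Fin N)) → Prop}

/-- if neither player has lost then there is an unclaimed edge -/
theorem exists_free (he : ∀ Y ⊆ full N, badQ Y ∨ badP (full N \ Y))
    {X Y : Finset (Sym2 (Fin N))} (hX : X ⊆ full N) (hY : Y ⊆ full N) (hXY : ∀ e ∈ X, e ∉ Y)
    (hq : ¬ badQ Y) (hp : ¬ badP X) : ∃ e ∈ full N, e ∉ X ∧ e ∉ Y := by
  by_contra hcon
  push Not at hcon
  have h1 : full N \ Y = X := by
    ext e
    rw [Finset.mem_sdiff]
    constructor
    · rintro ⟨h1, h2⟩
      by_contra h3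
      exact h2 (hcon e h1 h3)
    · intro h1
      exact ⟨hX h1, hXY e h1⟩
  rcases he Y hY with h2 | h2
  · exact hq h2
  · rw [h1] at h2
    exact hp h2

theorem card_free_lt {X Y : Finset (Sym2 (Fin N))} {e : Sym2 (Fin N)} (he : e ∈ full N)
    (heX : e ∉ X) (heY : e ∉ Y) {X' : Finset (Sym2 (Fin N))} (hX' : X ⊆ X') :
    (full N \ (X' ∪ insert e Y)).card < (full N \ (X ∪ Y)).card := by
  refine Finset.card_lt_card ⟨?_, ?_⟩
  · refine Finset.sdiff_subset_sdiff (Finset.Subset.refl _) ?_
    exact Finset.union_subset_union hX' (Finset.subset_insert _ _)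
  · intro h
    have := h (Finset.mem_sdiff.2 ⟨he, by rw [Finset.mem_union]; tauto⟩)
    rw [Finset.mem_sdiff, Finset.mem_union] at this
    exact this.2 (Or.inr (Finset.mem_insert_self _ _))

/-- mirror strategy with axis replies, and one pass or the right parity -/
theorem win_mirror (hσ : ∀ x, σ (σ x) = x)
    (hb : ∀ X Y, Inv σ ∅ X Y → badP X → badQ Y)
    (he : ∀ Y ⊆ full N, badQ Y ∨ badP (full N \ Y)) (n : ℕ) :
    ∀ (k : ℕ) (X Y : Finset (Sym2 (Fin N))), (full N \ (X ∪ Y)).card ≤ n → Inv σ ∅ X Y →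
      (Even (fa σ X Y).card ∨ 1 ≤ k) → ¬ badQ Y → WinsQ (full N) badP badQ k X Y := by
  induction n with
  | zero =>
    intro k X Y hn hI hk hq
    exfalso
    obtain ⟨e, he1, he2, he3⟩ := exists_free he hI.hX hI.hY hI.hXY hq (fun h => hq (hb X Y hI h))
    have := Finset.card_eq_zero.1 (Nat.le_zero.1 hn)
    rw [Finset.eq_empty_iff_forall_notMem] at this
    exact this e (by rw [Finset.mem_sdiff, Finset.mem_union]; tauto)
  | succ n ih =>
    intro k X Y hn hI hk hq
    refine WinsQ.mk (exists_free he hI.hX hI.hY hI.hXY hq (fun h => hq (hb X Y hI h))) ?_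
    intro e he1 heX heY
    by_cases hq' : badQ (insert e Y)
    · exact WinsP.lost hq'
    by_cases hea : Sym2.map σ e = e
    · have hmem : e ∈ fa σ X Y := mem_fa.2 ⟨⟨he1, hea⟩, heX, heY⟩
      by_cases hf : ∃ f, f ∈ fa σ X (insert e Y)
      · obtain ⟨f, hf⟩ := hf
        obtain ⟨⟨hf1, hfa⟩, hfX, hfY⟩ := mem_fa.1 hf
        have hfe : f ≠ e := fun h => hfY (by rw [h]; exact Finset.mem_insert_self _ _)
        have hfY' : f ∉ Y := fun h => hfY (Finset.mem_insert_of_mem h)
        have hI' := hI.axis_both he1 hea heX hf1 hfa hfY' hfe hσ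
        refine WinsP.move f hf1 hfX hfY (fun h => hq' (hb _ _ hI' h)) (ih k _ _ ?_ hI' ?_ hq')
        · have := card_free_lt he1 heX heY (Finset.subset_insert f X)
          omega
        · rcases hk with hk | hk
          · left
            rw [fa_left, fa_right, Finset.card_erase_of_mem (by rw [← fa_right]; exact hf),
              Finset.card_erase_of_mem hmem]
            rw [Nat.sub_sub]
            have h2 : 2 ≤ (fa σ X Y).card := by
              have : 1 < (fa σ X Y).card := Finset.one_lt_card.2 ⟨f, mem_fa.2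
                ⟨⟨hf1, hfa⟩, hfX, hfY'⟩, e, hmem, hfe⟩
              omega
            exact (Nat.even_sub h2).2 ⟨fun _ => even_two, fun _ => hk⟩
          · exact Or.inr hk
      · have h0 : fa σ X (insert e Y) = ∅ :=
          Finset.eq_empty_iff_forall_notMem.2 fun f hf' => hf ⟨f, hf'⟩
        have h1 : (fa σ X Y).card = 1 := by
          rw [fa_right] at h0
          have h2 := Finset.card_erase_add_one hmem
          rw [h0] at h2
          simpa using h2.symm
        have hk1 : 1 ≤ k := by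
          rcases hk with hk | hk
          · rw [h1] at hk; exact absurd hk (by decide)
          · exact hk
        obtain ⟨k', rfl⟩ : ∃ k', k = k' + 1 := ⟨k - 1, by omega⟩
        refine WinsP.pass (ih k' _ _ ?_ (hI.axis_right he1 hea heX hσ) ?_ hq')
        · have := card_free_lt he1 heX heY (Finset.Subset.refl X)
          omega
        · left; rw [h0]; simp
    · obtain ⟨h1, h2, hI'⟩ := hI.mirror hσ he1 hea heX heY (by simp)
      refine WinsP.move (Sym2.map σ e) (map_full hσ he1) h1 ?_ (fun h => hq' (hb _ _ hI' h))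
        (ih k _ _ ?_ hI' ?_ hq')
      · rw [Finset.mem_insert]
        rintro (h3 | h3)
        · exact hea h3
        · exact h2 h3
      · have := card_free_lt he1 heX heY (Finset.subset_insert (Sym2.map σ e) X)
        omega
      · rw [fa_left, fa_right, Finset.erase_eq_of_notMem (a := Sym2.map σ e),
          Finset.erase_eq_of_notMem (a := e)]
        · exact hk
        · intro h3; exact hea (mem_fa.1 h3).1.2
        · intro h3
          have := (mem_fa.1 (Finset.mem_of_mem_erase h3)).1.2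
          rw [map_map' hσ] at this
          exact hea this.symm

/-- mirror strategy which passes on axis edges -/
theorem win_pass (hσ : ∀ x, σ (σ x) = x)
    (hb : ∀ X Y, Inv σ ∅ X Y → (∀ e ∈ X, Sym2.map σ e ≠ e) → badP X → badQ Y)
    (he : ∀ Y ⊆ full N, badQ Y ∨ badP (full N \ Y)) (n : ℕ) :
    ∀ (k : ℕ) (X Y : Finset (Sym2 (Fin N))), (full N \ (X ∪ Y)).card ≤ n → Inv σ ∅ X Y →
      (∀ e ∈ X, Sym2.map σ e ≠ e) → (fa σ X Y).card ≤ k → ¬ badQ Y →
      WinsQ (full N) badP badQ k X Y := by
  induction n with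
  | zero =>
    intro k X Y hn hI ha hk hq
    exfalso
    obtain ⟨e, he1, he2, he3⟩ := exists_free he hI.hX hI.hY hI.hXY hq
      (fun h => hq (hb X Y hI ha h))
    have := Finset.card_eq_zero.1 (Nat.le_zero.1 hn)
    rw [Finset.eq_empty_iff_forall_notMem] at this
    exact this e (by rw [Finset.mem_sdiff, Finset.mem_union]; tauto)
  | succ n ih =>
    intro k X Y hn hI ha hk hq
    refine WinsQ.mk (exists_free he hI.hX hI.hY hI.hXY hq (fun h => hq (hb X Y hI ha h))) ?_
    intro e he1 heX heY
    by_cases hq' : badQ (insert e Y)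
    · exact WinsP.lost hq'
    by_cases hea : Sym2.map σ e = e
    · have hmem : e ∈ fa σ X Y := mem_fa.2 ⟨⟨he1, hea⟩, heX, heY⟩
      have h2 := Finset.card_erase_add_one hmem
      obtain ⟨k', rfl⟩ : ∃ k', k = k' + 1 := ⟨k - 1, by omega⟩
      refine WinsP.pass (ih k' _ _ ?_ (hI.axis_right he1 hea heX hσ) ha ?_ hq')
      · have := card_free_lt he1 heX heY (Finset.Subset.refl X)
        omega
      · rw [fa_right]; omega
    · obtain ⟨h1, h2, hI'⟩ := hI.mirror hσ he1 hea heX heY (by simp)
      have ha' : ∀ f ∈ insert (Sym2.map σ e) X, Sym2.map σ f ≠ f := by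
        intro f hf
        rw [Finset.mem_insert] at hf
        rcases hf with hf | hf
        · rw [hf, map_map' hσ]; exact fun h => hea h.symm
        · exact ha f hf
      refine WinsP.move (Sym2.map σ e) (map_full hσ he1) h1 ?_ (fun h => hq' (hb _ _ hI' ha' h))
        (ih k _ _ ?_ hI' ha' ?_ hq')
      · rw [Finset.mem_insert]
        rintro (h3 | h3)
        · exact hea h3
        · exact h2 h3
      · have := card_free_lt he1 heX heY (Finset.subset_insert (Sym2.map σ e) X)
        omega
      · refine le_trans (Finset.card_le_card ?_) hk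
        rw [fa_left, fa_right]
        exact (Finset.erase_subset _ _).trans (Finset.erase_subset _ _)

end mirror

end RCG
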